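import Pool.Agent.Lib.TWRT.RT5
import Pool.Agent.Lib.TWRR.R5

/-!
# TANK W, contact (III.1), RAT for a family: the interface with the residue case

* `Fam.h0w`, `Fam.ratH`: H0 and RAT as the Props of `TWRR`;
* `mov_h0w_ratH`: both for `MovV` and for `MovR`.
-/

set_option autoImplicit false

open Polynomial Finset

namespace Pool.Agent.TWRT

open Pool.Agent.H15JM (RVal)
open Pool.Agent.D2 (Ctx0)
open Pool.Agent.D2P (clI)
open Pool.Agent.TWM
open Pool.Agent.TWRR (H0w RatH famR_of_mov)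
open Pool.Agent.TWCT (MovV MovR)

universe u

variable {k Ω : Type u} [Field k] [Field Ω] [Algebra k Ω] {v : RVal Ω}
  {C : IntermediateField k Ω} {w : Ω} {ρ : ℝ} {p : ℕ} [hp : Fact p.Prime] [CharP Ω p]
  [IsAlgClosed Ω]

theorem Fam.h0w (hF : Fam v C w ρ) (hw : TL v C w ρ) : H0w p v C w ρ :=
  fun _ _ hf _ hν _ hl hpl => hF.h0 hw hf hν hl hpl

theorem Fam.ratH (hF : Fam v C w ρ) (hw : TL v C w ρ) : RatH p v C w ρ :=
  fun _ _ _ _ _ _ _ _ hN => rat hF hw hN

/-- **H0 and RAT for a moving floor** over a quiet field. -/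
theorem mov_h0w_ratH [IsAlgClosed k] (hk : Ctx0 k v) {L : ℕ → IntermediateField k Ω}
    (hL : Monotone L) (hd : C ≤ clI v (⨆ J, L J)) (hw : TL v C w ρ)
    (hmov : MovV v L C w ρ ∨ MovR v L C w ρ) : H0w p v C w ρ ∧ RatH p v C w ρ := by
  rcases hmov with h | h
  · exact ⟨(fam_of_movV hL hd h).h0w hw, (fam_of_movV hL hd h).ratH hw⟩
  · obtain ⟨t, ht⟩ := famR_of_mov hL hd hw h
    exact ⟨ht.h0 hk, ht.ratH hk⟩

end Pool.Agent.TWRT
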