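import Pool.Agent.Lib.TWN1.Nf
import Pool.Agent.Lib.TWN1.Chain2
import Pool.Agent.Lib.TWCT.Str

/-!
# TANK W, contact (III.1), RAT for a family: the calculus of one strict motion

`Φ` an isometric embedding, `Φ w = w + Z`, `Z ∈ C`, strict on `F = cadj v C w`.
`sm Φ f` = the polynomial with the coefficients moved; `S f := (sm Φ f)(w)`.

* `sm_eq`: `S f = ∑ j, Φ (D^[j] f) (-Z) ^ j`;
* `Mo`: one motion, `Fam`: the family (visible displacement of `w`, pointwise to the identity);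
* `h0`: the jets of order divisible by `p` of a critical element are null; `top`.
-/

set_option autoImplicit false

open Polynomial Finset

namespace Pool.Agent.TWRT

open Pool.Agent.H15JM (RVal)
open Pool.Agent.TWM
open Pool.Agent.TWS (IsoE)
open Pool.Agent.TWII (PG LP)
open Pool.Agent.TWN1
open Pool.Agent.TWCT (StrM)

universe u

variable {k Ω : Type u} [Field k] [Field Ω] [Algebra k Ω] {v : RVal Ω}
  {C F : IntermediateField k Ω} {Φ : Ω →ₐ[k] Ω} {w Z : Ω} {η ρ ν g : ℝ}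

/-- The polynomial with the coefficients moved. -/
noncomputable def sm (Φ : Ω →ₐ[k] Ω) (f : Polynomial Ω) : Polynomial Ω := f.map (Φ : Ω →+* Ω)

theorem sm_coeff (f : Polynomial Ω) (i : ℕ) : (sm Φ f).coeff i = Φ (f.coeff i) := by
  rw [sm, coeff_map]
  rfl

theorem sm_add (f g : Polynomial Ω) : sm Φ (f + g) = sm Φ f + sm Φ g := Polynomial.map_add _

theorem sm_sub (f g : Polynomial Ω) : sm Φ (f - g) = sm Φ f - sm Φ g := Polynomial.map_sub _

theorem sm_mul (f g : Polynomial Ω) : sm Φ (f * g) = sm Φ f * sm Φ g := Polynomial.map_mul _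

theorem sm_pow (f : Polynomial Ω) (n : ℕ) : sm Φ (f ^ n) = sm Φ f ^ n := Polynomial.map_pow _ n

theorem sm_C (c : Ω) : sm Φ (Polynomial.C c) = Polynomial.C (Φ c) := Polynomial.map_C _

theorem sm_zero : sm Φ (0 : Polynomial Ω) = 0 := Polynomial.map_zero _

theorem sm_sum {ι : Type*} (s : Finset ι) (f : ι → Polynomial Ω) :
    sm Φ (∑ i ∈ s, f i) = ∑ i ∈ s, sm Φ (f i) := by
  rw [sm, Polynomial.map_sum]
  rfl

theorem sm_hasse (f : Polynomial Ω) (i : ℕ) : sm Φ (hasseDeriv i f) = hasseDeriv i (sm Φ f) := by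
  ext n
  rw [sm_coeff, hasseDeriv_coeff, hasseDeriv_coeff, sm_coeff, map_mul, map_natCast]

theorem sm_natDegree_le (f : Polynomial Ω) : (sm Φ f).natDegree ≤ f.natDegree :=
  natDegree_map_le

theorem sm_mem (hC : ∀ x ∈ C, Φ x ∈ C) {f : Polynomial Ω} (hf : f ∈ PI C) : sm Φ f ∈ PI C :=
  fun i => by
    rw [sm_coeff]
    exact hC _ (hf i)

/-- **(1)**: `S f = ∑ j, Φ (D^[j] f) (-Z) ^ j`. -/
theorem sm_eq (hw : Φ w = w + Z) (f : Polynomial Ω) {L : ℕ} (hL : f.natDegree ≤ L) :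
    (sm Φ f).eval w =
      ∑ j ∈ range (L + 1), Φ ((hasseDeriv j f).eval w) * (-Z) ^ j := by
  have h1 : ∀ h : Polynomial Ω, Φ (h.eval w) = (sm Φ h).eval (w + Z) := by
    intro h
    rw [← hw, sm]
    exact (eval_map_apply (Φ : Ω →+* Ω) w).symm ▸ rfl
  have h2 : (sm Φ f).eval w = (taylor (w + Z) (sm Φ f)).eval (-Z) := by
    rw [taylor_eval]
    congr 1
    ring
  rw [h2, eval_eq_sum_range' (n := L + 1) (by
    rw [natDegree_taylor]
    exact Nat.lt_succ_of_le ((sm_natDegree_le f).trans hL))]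
  refine sum_congr rfl fun j _ => ?_
  rw [taylor_coeff, ← sm_hasse, h1]

/-- One motion. -/
structure Mo (v : RVal Ω) (C : IntermediateField k Ω) (w : Ω) (Φ : Ω →ₐ[k] Ω) (η : ℝ) (Z : Ω) :
    Prop where
  pos : 0 < η
  iso : IsoE v v Φ
  memC : ∀ x ∈ C, Φ x ∈ C
  str : StrM v Φ (cadj v C w) η
  mv : Φ w = w + Z
  Zm : Z ∈ C

/-- The family: the displacement of `w` is visible and tends to the radius, and finitely many
polynomials are fixed to any precision. -/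
def Fam (v : RVal Ω) (C : IntermediateField k Ω) (w : Ω) (ρ : ℝ) : Prop :=
  ∀ S : Finset (Polynomial Ω), (∀ f ∈ S, f ∈ PI C) → ∀ M ε : ℝ, 0 < ε →
    ∃ (Φ : Ω →ₐ[k] Ω) (η : ℝ) (Z : Ω) (g : ℝ), Mo v C w Φ η Z ∧
      (∀ f ∈ S, v.Ge M ((sm Φ f).eval w - f.eval w)) ∧ Z ≠ 0 ∧ 0 < g ∧ g < ε ∧ v Z = ρ - g

theorem Mo.memF (h : Mo v C w Φ η Z) : ∀ x ∈ cadj v C w, Φ x ∈ cadj v C w :=
  TWCT.map_cadj_le h.iso (cld_cadj v C w) (fun a ha => le_cadj v C w (h.memC a ha)) (by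
    rw [h.mv]
    exact add_mem (self_mem_cadj v C w) (le_cadj v C w h.Zm))

section P

variable {p : ℕ} [hp : Fact p.Prime] [CharP Ω p]

omit hp [CharP Ω p] in
theorem Mo.pc (h : Mo v C w Φ η Z) {c : ℝ} {x : Ω} (hx : PC p v (cadj v C w) c x) :
    PC p v (cadj v C w) c (Φ x) := by
  obtain ⟨a, ha, h1⟩ := hx
  refine ⟨Φ a, h.memF a ha, ?_⟩
  rw [← map_pow, ← map_sub]
  exact h.iso.ge_iff.2 h1

omit hp [CharP Ω p] in
theorem Mo.lp (h : Mo v C w Φ η Z) {c : ℝ} {x : Ω} (hx : LP p v (cadj v C w) c x) :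
    LP p v (cadj v C w) c (Φ x) := lp_iff.2 fun _ hc => h.pc (hx.pc hc)

/-- **NULL**: with margin `η / 2`. -/
theorem Mo.null (h : Mo v C w Φ η Z) {c : ℝ} {x : Ω} (hxF : x ∈ cadj v C w)
    (hx : LP p v (cadj v C w) c x) : PC p v (cadj v C w) (c + η / 2) (Φ x - x) := by
  obtain ⟨a, ha, h1⟩ := hx (η / 2) (half_pos h.pos)
  have e : Φ x - x = (Φ (x - a ^ p) - (x - a ^ p)) + (Φ a - a) ^ p := by
    rw [sub_pow_char, map_sub, map_pow]
    ring
  rw [e]
  refine (PC.of_ge ?_).add (PC.of_pow (sub_mem (h.memF a ha) ha))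
  exact (h.str _ (sub_mem hxF (pow_mem ha p)) _ h1).mono (by linarith)

/-- The term of index `j`, `p ∣ j`. -/
theorem Mo.term_lp (h : Mo v C w Φ η Z) (hZ : v.Ge (ρ - g) Z) {t : ℝ} {x : Ω} {j : ℕ} (hj : p ∣ j)
    (hx : LP p v (cadj v C w) t x) :
    LP p v (cadj v C w) (t + j * (ρ - g)) (Φ x * (-Z) ^ j) := by
  obtain ⟨l, rfl⟩ := hj
  rw [mul_comm p l, pow_mul]
  refine LP.mul_pow (h.lp hx) (pow_mem (neg_mem (le_cadj v C w h.Zm)) l) ?_
  rw [← pow_mul]
  refine (ge_pow hZ.neg (l * p)).mono (le_of_eq ?_)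
  push_cast
  ring

omit hp [CharP Ω p] in
theorem Mo.term_ge (h : Mo v C w Φ η Z) (hZ : v.Ge (ρ - g) Z) {t : ℝ} {x : Ω} (j : ℕ)
    (hx : v.Ge t x) : v.Ge (t + j * (ρ - g)) (Φ x * (-Z) ^ j) :=
  (h.iso.ge_iff.2 hx).mul (ge_pow hZ.neg j)

omit hp [CharP Ω p] in
/-- `S f - f`. -/
theorem Mo.S_sub (h : Mo v C w Φ η Z) (f : Polynomial Ω) {L : ℕ} (hL : f.natDegree ≤ L) :
    (sm Φ f).eval w - f.eval w = (Φ (f.eval w) - f.eval w) +
      ∑ j ∈ Icc 1 L, Φ ((hasseDeriv j f).eval w) * (-Z) ^ j := by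
  rw [sm_eq h.mv f hL]
  have e1 : range (L + 1) = insert 0 (Icc 1 L) := by
    ext i
    rw [mem_range, mem_insert, mem_Icc]
    omega
  rw [e1, sum_insert (by simp), hasseDeriv_zero', pow_zero, mul_one]
  ring

variable [IsAlgClosed Ω]

/-- The jets of order prime to `p`, `≥ 2`, of a critical element are small. -/
theorem jet_gt (hw : TL v C w ρ) {f : Polynomial Ω} (hf : f ∈ PI C)
    (hν : LP p v (cadj v C w) ν (f.eval w)) {j : ℕ} (hj : 2 ≤ j) (hpj : ¬ p ∣ j) :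
    Gt v (ν - j * ρ) ((hasseDeriv j f).eval w) := by
  have h1 : v.Ge (ν - ρ) ((hasseDeriv 1 f).eval w) := lp_jet_one (p := p) hw hf hν
  obtain ⟨m, rfl⟩ : ∃ m, j = m + 1 := ⟨j - 1, by omega⟩
  have h2 := TWLM.poly_str hw (hasse_mem_PI hf 1) (j := m) (by omega) h1
  rw [hasse_hasse, eval_mul, eval_C, Nat.choose_succ_self_right] at h2
  have h3 : ((m + 1 : ℕ) : Ω) ≠ 0 := fun h0 => hpj ((CharP.cast_eq_zero_iff Ω p _).1 h0)
  have h4 : v ((m + 1 : ℕ) : Ω) = 0 := (TWM.val_natCast (v := v) (Ω := Ω) p hpj).2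
  intro h5
  have h6 := h2 (mul_ne_zero h3 h5)
  rw [v.map_mul h3 h5, h4] at h6
  push_cast
  linarith

/-- **H0**. -/
theorem Fam.h0 (hF : Fam v C w ρ) (hw : TL v C w ρ) {f : Polynomial Ω} (hf : f ∈ PI C)
    (hν : LP p v (cadj v C w) ν (f.eval w)) {i : ℕ} (hi : i ≠ 0) (hpi : p ∣ i) :
    PG p v (cadj v C w) (ν - i * ρ) ((hasseDeriv i f).eval w) := by
  classical
  by_contra hbad
  set D := f.natDegree with hD
  -- the last bad index
  set B := (range (D + 1)).filter fun l => l ≠ 0 ∧ p ∣ l ∧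
    ¬ PG p v (cadj v C w) (ν - l * ρ) ((hasseDeriv l f).eval w) with hB
  have hmemB : ∀ l, l ≠ 0 → p ∣ l →
      ¬ PG p v (cadj v C w) (ν - l * ρ) ((hasseDeriv l f).eval w) → l ∈ B := by
    intro l h1 h2 h3
    refine mem_filter.2 ⟨mem_range.2 ?_, h1, h2, h3⟩
    by_contra h4
    rw [hasseDeriv_eq_zero_of_lt_natDegree f l (by omega), eval_zero] at h3
    exact h3 (.of_gt Gt.zero)
  have hBne : B.Nonempty := ⟨i, hmemB i hi hpi hbad⟩
  set q := B.max' hBne with hq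
  obtain ⟨hqD, hq0, hpq, hqbad⟩ := mem_filter.1 (B.max'_mem hBne)
  have hqD' : q ≤ D := Nat.lt_succ_iff.1 (mem_range.1 hqD)
  have hmax : ∀ l ∈ B, l ≤ q := fun l hl => B.le_max' l hl
  have hq2 : 2 ≤ q := hp.out.two_le.trans (Nat.le_of_dvd (Nat.pos_of_ne_zero hq0) hpq)
  -- the margins
  obtain ⟨μ, hμ, hm1⟩ := exists_min_pos (range (D + 1))
    (fun l a => (2 ≤ l → ¬ p ∣ l → v.Ge (ν - l * ρ + a) ((hasseDeriv l f).eval w)) ∧
      (q < l → p ∣ l → PC p v (cadj v C w) (ν - l * ρ + a) ((hasseDeriv l f).eval w)))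
    (fun l a b hab h1 => ⟨fun h2 h3 => (h1.1 h2 h3).mono (by linarith),
      fun h2 h3 => (h1.2 h2 h3).mono (by linarith)⟩)
    (fun l _ => by
      by_cases hpl : p ∣ l
      · by_cases hql : q < l
        · have h1 : PG p v (cadj v C w) (ν - l * ρ) ((hasseDeriv l f).eval w) := by
            by_contra h2
            exact absurd (hmax l (hmemB l (by omega) hpl h2)) (by omega)
          obtain ⟨a, ha, h2⟩ := PG.exists_pc h1
          exact ⟨a, ha, fun _ h3 => absurd hpl h3, fun _ _ => h2⟩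
        · exact ⟨1, one_pos, fun _ h3 => absurd hpl h3, fun h3 => absurd h3 hql⟩
      · by_cases hl2 : 2 ≤ l
        · obtain ⟨a, ha, h2⟩ := TWLM.exists_ge_of_gt (jet_gt hw hf hν hl2 hpl)
          exact ⟨a, ha, fun _ _ => h2, fun _ h3 => absurd h3 hpl⟩
        · exact ⟨1, one_pos, fun h3 => absurd h3 hl2, fun _ h3 => absurd h3 hpl⟩)
  have hD1 : (0 : ℝ) < D + 1 := by positivity
  obtain ⟨Φ, η, Z, g, hMo, hS, hZ0, hg0, hgε, hvZ⟩ := hF {f} (fun h hh => by
    rw [mem_singleton.1 hh]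
    exact hf) (ν + 1) (μ / (D + 1)) (div_pos hμ hD1)
  have hgD : ((D : ℝ) + 1) * g ≤ μ := by
    rw [lt_div_iff₀ hD1] at hgε
    linarith
  have hZg : v.Ge (ρ - g) Z := fun _ => hvZ.ge
  have h1 := hS f (mem_singleton_self f)
  rw [hMo.S_sub f le_rfl, ← add_sum_erase _ _ (mem_Icc.2 ⟨by omega, hqD'⟩ : q ∈ Icc 1 D)] at h1
  have hjet := fun j => LP.hjet hw hf hν j
  -- the other terms
  have h2 : ∀ j ∈ (Icc 1 D).erase q, LP p v (cadj v C w) (ν - (q - 1) * g)
      (Φ ((hasseDeriv j f).eval w) * (-Z) ^ j) := by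
    intro j hj
    obtain ⟨hjq, hj1⟩ := mem_erase.1 hj
    obtain ⟨hj1, hjD⟩ := mem_Icc.1 hj1
    have hjD' : (j : ℝ) ≤ D := by exact_mod_cast hjD
    have hjg : (j : ℝ) * g ≤ μ := (mul_le_mul_of_nonneg_right (by linarith) hg0.le).trans hgD
    have hq1 : (0 : ℝ) ≤ ((q : ℝ) - 1) * g := by
      have : (2 : ℝ) ≤ q := by exact_mod_cast hq2
      exact mul_nonneg (by linarith) hg0.le
    by_cases hpj : p ∣ j
    · by_cases hjq' : q < j
      · have h3 := (hm1 j (mem_range.2 (by omega))).2 hjq' hpj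
        refine (hMo.term_lp (p := p) hZg hpj h3.lp).mono ?_
        linarith
      · refine (hMo.term_lp (p := p) hZg hpj (hjet j)).mono ?_
        have h4 : (j : ℝ) ≤ q - 1 := by
          have : (j : ℝ) + 1 ≤ q := by
            have : j + 1 ≤ q := by omega
            exact_mod_cast this
          linarith
        nlinarith
    · by_cases hj2 : 2 ≤ j
      · have h3 := (hm1 j (mem_range.2 (by omega))).1 hj2 hpj
        refine lp_of_ge ((hMo.term_ge hZg j h3).mono ?_)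
        linarith
      · obtain rfl : j = 1 := by omega
        refine lp_of_ge ((hMo.term_ge hZg 1 (lp_jet_one (p := p) hw hf hν)).mono ?_)
        have : (2 : ℝ) ≤ q := by exact_mod_cast hq2
        push_cast
        nlinarith
  have h3 : LP p v (cadj v C w) (ν - (q - 1) * g) (Φ (f.eval w) - f.eval w) :=
    (hMo.null (TWLM.eval_mem_cadj hf) hν).lp.mono (by
      have : (2 : ℝ) ≤ q := by exact_mod_cast hq2
      have := hMo.pos
      nlinarith)
  have h4 : LP p v (cadj v C w) (ν - (q - 1) * g)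
      (Φ ((hasseDeriv q f).eval w) * (-Z) ^ q) := by
    have h5 := ((lp_of_ge (p := p) (F := cadj v C w) (h1.mono (c' := ν - (q - 1) * g) (by
      have : (2 : ℝ) ≤ q := by exact_mod_cast hq2
      nlinarith))).sub h3).sub (LP.sum _ _ h2)
    have e1 : ∀ a b c : Ω, a + (b + c) - a - c = b := fun a b c => by ring
    rwa [e1] at h5
  have hZF : -Z ∈ cadj v C w := neg_mem (le_cadj v C w hMo.Zm)
  have h5 : PG p v (cadj v C w) (ν - q * ρ) (Φ ((hasseDeriv q f).eval w)) := by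
    obtain ⟨l, hl⟩ := hpq
    have hl0 : l ≠ 0 := by
      rintro rfl
      rw [mul_zero] at hl
      exact hq0 hl
    refine PG.of_mul_pow (d := (-Z) ^ l) (pow_mem hZF l) (pow_ne_zero _ (neg_ne_zero.2 hZ0)) ?_
    rw [← pow_mul, mul_comm l p, ← hl]
    refine pg_of_lp h4 ?_
    rw [v.map_pow (neg_ne_zero.2 hZ0), v.map_neg _ hZ0, hvZ]
    have h6 : (q : ℝ) = p * l := by exact_mod_cast hl
    have h7 : (p : ℝ) * (l * (ρ - g)) = q * (ρ - g) := by
      rw [h6]
      ring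
    rw [h7]
    linarith
  refine hqbad ?_
  have e1 : (hasseDeriv q f).eval w = Φ ((hasseDeriv q f).eval w) -
      (Φ ((hasseDeriv q f).eval w) - (hasseDeriv q f).eval w) := by ring
  rw [e1]
  obtain ⟨a, ha, h6⟩ := PG.exists_pc h5
  have h7 := hMo.null (TWLM.eval_mem_cadj (hasse_mem_PI hf q)) (hjet q)
  exact ((h6.mono (c' := ν - q * ρ + min a (η / 2)) (by linarith [min_le_left a (η / 2)])).sub
    (h7.mono (by linarith [min_le_right a (η / 2)]))).pg (by
      linarith [lt_min ha (half_pos hMo.pos)])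

/-- **TOP**. -/
theorem Fam.top (hF : Fam v C w ρ) (hw : TL v C w ρ) {f : Polynomial Ω} (hf : f ∈ PI C)
    (hν : LP p v (cadj v C w) ν (f.eval w)) (hd : Gt v (ν - ρ) ((hasseDeriv 1 f).eval w)) :
    ∃ c ∈ C, PG p v (cadj v C w) ν (f.eval w - c) := by
  classical
  set D := f.natDegree with hD
  obtain ⟨μ, hμ, hm1⟩ := exists_min_pos (Icc 1 D)
    (fun l a => PC p v (cadj v C w) (ν - l * ρ + a) ((hasseDeriv l f).eval w) ∧
      (¬ p ∣ l → v.Ge (ν - l * ρ + a) ((hasseDeriv l f).eval w)))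
    (fun l a b hab h1 => ⟨h1.1.mono (by linarith), fun h2 => (h1.2 h2).mono (by linarith)⟩)
    (fun l hl => by
      obtain ⟨hl1, hlD⟩ := mem_Icc.1 hl
      by_cases hpl : p ∣ l
      · obtain ⟨a, ha, h2⟩ := PG.exists_pc (hF.h0 hw hf hν (by omega) hpl)
        exact ⟨a, ha, h2, fun h3 => absurd hpl h3⟩
      · have h1 : Gt v (ν - l * ρ) ((hasseDeriv l f).eval w) := by
          by_cases hl2 : 2 ≤ l
          · exact jet_gt hw hf hν hl2 hpl
          · obtain rfl : l = 1 := by omega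
            simpa using hd
        obtain ⟨a, ha, h2⟩ := TWLM.exists_ge_of_gt h1
        exact ⟨a, ha, PC.of_ge h2, fun _ => h2⟩)
  have hD1 : (0 : ℝ) < D + 1 := by positivity
  obtain ⟨ψ, hψ, hwψ⟩ := hw.lim (μ / (2 * (D + 1))) (by positivity)
  refine ⟨f.eval ψ, eval_mem hf hψ, ?_⟩
  have e0 : f.eval ψ = ∑ j ∈ range (D + 1), (hasseDeriv j f).eval w * (ψ - w) ^ j := by
    have h2 : f.eval ψ = (taylor w f).eval (ψ - w) := by
      rw [taylor_eval, sub_add_cancel]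
    rw [h2, eval_eq_sum_range' (n := D + 1) (by
      rw [natDegree_taylor]
      exact Nat.lt_succ_self _)]
    exact sum_congr rfl fun j _ => by rw [taylor_coeff]
  have e1 : range (D + 1) = insert 0 (Icc 1 D) := by
    ext i
    rw [mem_range, mem_insert, mem_Icc]
    omega
  rw [e1, sum_insert (by simp), hasseDeriv_zero', pow_zero, mul_one] at e0
  rw [e0, sub_add_cancel_left]
  refine PC.pg (c := ν + μ / 2) (PC.neg (PC.sum _ _ fun j hj => ?_)) (by linarith)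
  obtain ⟨hj1, hjD⟩ := mem_Icc.1 hj
  obtain ⟨h2, h3⟩ := hm1 j hj
  have hjD' : (j : ℝ) * (μ / (2 * (D + 1))) ≤ μ / 2 := by
    have h4 : (j : ℝ) ≤ D + 1 := by
      have : (j : ℝ) ≤ D := by exact_mod_cast hjD
      linarith
    calc (j : ℝ) * (μ / (2 * (D + 1))) ≤ (D + 1) * (μ / (2 * (D + 1))) :=
          mul_le_mul_of_nonneg_right h4 (by positivity)
      _ = μ / 2 := by field_simp
  have hψw : v.Ge (ρ - μ / (2 * (D + 1))) (ψ - w) := ge_sub_comm hwψ
  by_cases hpj : p ∣ j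
  · obtain ⟨l, rfl⟩ := hpj
    rw [mul_comm p l, pow_mul]
    have h5 : v.Ge ((p * l : ℕ) * (ρ - μ / (2 * (D + 1)))) (((ψ - w) ^ l) ^ p) := by
      rw [← pow_mul, mul_comm l p]
      exact ge_pow hψw _
    rw [mul_comm l p] at *
    refine (PC.mul_pow h2 (pow_mem (sub_mem (le_cadj v C w hψ) (self_mem_cadj v C w)) l) h5).mono ?_
    nlinarith
  · refine PC.of_ge (((h3 hpj).mul (ge_pow hψw j)).mono ?_)
    nlinarith

end P

end Pool.Agent.TWRT
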