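import Pool.Agent.Lib.TWRT.RT0
import Pool.Agent.Lib.TWN1.Chain3

/-!
# TANK W, contact (III.1), RAT for a family: the relations, (G1) and the leading term

`dp Φ Δ = sm Φ Δ - Δ`, the displacement of the polynomial `Δ = θ - θ₀`.

* `Prec`: the precision of the motion on the coefficients and on the base point;
* `rel`: the relation `(R_i)`; `shape`, `shape_top`: the size and the leading term of
  `S (D^[i] f) - D^[i] f`;
* `g1`: `|D^[i] (dp Φ Δ)| ≤ (L / Q - i)^+ g + eps / Q`; `key`: the leading term of `(R_i)`.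
-/

set_option autoImplicit false
set_option linter.unusedSectionVars false

open Polynomial Finset

namespace Pool.Agent.TWRT

open Pool.Agent.H15JM (RVal)
open Pool.Agent.TWM
open Pool.Agent.TWS (IsoE)
open Pool.Agent.TWII (PG LP)
open Pool.Agent.TWN1
open Pool.Agent.TWCT (StrM)

universe u

variable {k Ω : Type u} [Field k] [Field Ω] [Algebra k Ω] {v : RVal Ω}
  {K : IntermediateField k Ω} {Φ : Ω →ₐ[k] Ω} {w Z : Ω} {η ρ ν g : ℝ}
  {p : ℕ} [hp : Fact p.Prime] [CharP Ω p] [IsAlgClosed Ω]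
  {e : Ω} {A : ℕ → Ω} {N J L : ℕ} {B θ θ₀ : Polynomial Ω} {s M b e₀ eps t : ℝ}

/-- The displacement of a polynomial. -/
noncomputable def dp (Φ : Ω →ₐ[k] Ω) (Δ : Polynomial Ω) : Polynomial Ω := sm Φ Δ - Δ

theorem dp_mem (hC : ∀ x ∈ K, Φ x ∈ K) {Δ : Polynomial Ω} (hΔ : Δ ∈ PI K) : dp Φ Δ ∈ PI K :=
  sub_mem (sm_mem hC hΔ) hΔ

theorem dp_deg {Δ : Polynomial Ω} (hJ : Δ.natDegree ≤ J) : (dp Φ Δ).natDegree ≤ J :=
  (natDegree_sub_le _ _).trans (max_le ((sm_natDegree_le Δ).trans hJ) hJ)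

theorem dp_hasse (Δ : Polynomial Ω) (i : ℕ) : hasseDeriv i (dp Φ Δ) = dp Φ (hasseDeriv i Δ) := by
  rw [dp, map_sub, ← sm_hasse, dp]

/-- The a priori bound. -/
theorem Mo.sm_ge (h : Mo v K w Φ η Z) (hw : TL v K w ρ) (hZ : v.Ge (ρ - g) Z) (hg0 : 0 ≤ g)
    {Δ : Polynomial Ω} (hΔ : Δ ∈ PI K) (hJ : Δ.natDegree ≤ J) (hb : v.Ge b (Δ.eval w)) (i : ℕ) :
    v.Ge (b - i * ρ - J * g) ((hasseDeriv i (sm Φ Δ)).eval w) := by
  rw [← sm_hasse, sm_eq h.mv (hasseDeriv i Δ) (L := J)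
    ((natDegree_hasseDeriv_le Δ i).trans (by omega))]
  refine RVal.Ge.sum _ _ fun j hj => ?_
  have hj' : (j : ℝ) ≤ J := by
    have := mem_range.1 hj
    have : j ≤ J := by omega
    exact_mod_cast this
  have h1 := TWLM.poly_norm hw (hasse_mem_PI hΔ i) j (TWLM.poly_norm hw hΔ i hb)
  refine (h.term_ge hZ j h1).mono ?_
  nlinarith

theorem Mo.dp_ge (h : Mo v K w Φ η Z) (hw : TL v K w ρ) (hZ : v.Ge (ρ - g) Z) (hg0 : 0 ≤ g)
    {Δ : Polynomial Ω} (hΔ : Δ ∈ PI K) (hJ : Δ.natDegree ≤ J) (hb : v.Ge b (Δ.eval w)) (i : ℕ) :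
    v.Ge (b - i * ρ - J * g) ((hasseDeriv i (dp Φ Δ)).eval w) := by
  rw [dp, map_sub, eval_sub]
  have : (0 : ℝ) ≤ J * g := by positivity
  exact (h.sm_ge hw hZ hg0 hΔ hJ hb i).sub ((TWLM.poly_norm hw hΔ i hb).mono (by linarith))

/-- The precision. -/
structure Prec (p : ℕ) (v : RVal Ω) (Φ : Ω →ₐ[k] Ω) (w : Ω) (ρ s ν : ℝ) (e : Ω) (A : ℕ → Ω)
    (N : ℕ) (f₀ : Polynomial Ω) (b M : ℝ) : Prop where
  e : v.Ge M (Φ e - e)
  A : ∀ m ∈ Icc 1 N, v.Ge M (Φ (A m) - A m)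
  f : ∀ i : ℕ, v.Ge (ν - i * ρ + 1) ((sm Φ (hasseDeriv i f₀)).eval w - (hasseDeriv i f₀).eval w)
  M : ∀ m : ℕ, m ≤ N → ν + 1 ≤ M + p ^ m * (s - b)

/-- **The relation `(R_i)`**. -/
theorem rel (h : Mo v K w Φ η Z) (hw : TL v K w ρ) (hZ : v.Ge (ρ - g) Z) (hg0 : 0 ≤ g)
    (hP : Prec p v Φ w ρ s ν e A N (fth p e A N B θ₀) (e₀ + J * g) M)
    (hθ : θ ∈ PI K) (hθ₀ : θ₀ ∈ PI K) (hJ : (θ - θ₀).natDegree ≤ J)
    (he₀ : v.Ge (s - e₀) ((θ - θ₀).eval w)) (i : ℕ) :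
    v.Ge (ν - i * ρ + 1) (e * (hasseDeriv i (dp Φ (θ - θ₀))).eval w +
      ∑ m ∈ Icc 1 N, A m * (hasseDeriv i (dp Φ (θ - θ₀) ^ p ^ m)).eval w -
      ((sm Φ (hasseDeriv i (fth p e A N B θ))).eval w -
        (hasseDeriv i (fth p e A N B θ)).eval w)) := by
  set Δ := θ - θ₀ with hΔ
  have hΔm : Δ ∈ PI K := sub_mem hθ hθ₀
  have hb := h.sm_ge hw hZ hg0 hΔm hJ he₀
  -- the polynomial identity
  have e0 := fth_sub (p := p) e A N B θ θ₀
  obtain ⟨dE, hdE⟩ : ∃ x, x = Φ e - e := ⟨_, rfl⟩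
  obtain ⟨dA, hdA⟩ : ∃ x : ℕ → Ω, x = fun m => Φ (A m) - A m := ⟨_, rfl⟩
  have hdA' : ∀ m, dA m = Φ (A m) - A m := fun m => by rw [hdA]
  have e1 : sm Φ (fth p e A N B θ) - fth p e A N B θ =
      (sm Φ (fth p e A N B θ₀) - fth p e A N B θ₀) +
      (C e * dp Φ Δ + ∑ m ∈ Icc 1 N, C (A m) * dp Φ Δ ^ p ^ m) +
      (C dE * sm Φ Δ + ∑ m ∈ Icc 1 N, C (dA m) * sm Φ Δ ^ p ^ m) := by
    have e2 : fth p e A N B θ = fth p e A N B θ₀ +
        (C e * Δ + ∑ m ∈ Icc 1 N, C (A m) * Δ ^ p ^ m) := by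
      rw [← e0]
      ring
    have e3 : ∑ m ∈ Icc 1 N, C (A m) * dp Φ Δ ^ p ^ m =
        ∑ m ∈ Icc 1 N, C (A m) * sm Φ Δ ^ p ^ m - ∑ m ∈ Icc 1 N, C (A m) * Δ ^ p ^ m := by
      rw [← sum_sub_distrib]
      exact sum_congr rfl fun m _ => by rw [dp, sub_pow_char_pow, mul_sub]
    have e4 : ∑ m ∈ Icc 1 N, C (dA m) * sm Φ Δ ^ p ^ m =
        ∑ m ∈ Icc 1 N, C (Φ (A m)) * sm Φ Δ ^ p ^ m -
          ∑ m ∈ Icc 1 N, C (A m) * sm Φ Δ ^ p ^ m := by
      rw [← sum_sub_distrib]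
      exact sum_congr rfl fun m _ => by rw [hdA', C_sub, sub_mul]
    have e5 : sm Φ (∑ m ∈ Icc 1 N, C (A m) * Δ ^ p ^ m) =
        ∑ m ∈ Icc 1 N, C (Φ (A m)) * sm Φ Δ ^ p ^ m := by
      rw [sm_sum]
      exact sum_congr rfl fun m _ => by rw [sm_mul, sm_C, sm_pow]
    rw [e2, sm_add, sm_add, sm_mul, sm_C, e5, e3, e4, hdE, C_sub, dp]
    ring
  have e2 := congrArg (fun f => (hasseDeriv i f).eval w) e1
  simp only [map_add, map_sub, map_sum, hasse_C_mul, eval_add, eval_sub, eval_finsetSum, eval_mul,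
    eval_C, ← sm_hasse] at e2
  have e3 : e * (hasseDeriv i (dp Φ Δ)).eval w +
      ∑ m ∈ Icc 1 N, A m * (hasseDeriv i (dp Φ Δ ^ p ^ m)).eval w -
      ((sm Φ (hasseDeriv i (fth p e A N B θ))).eval w -
        (hasseDeriv i (fth p e A N B θ)).eval w) =
      -((sm Φ (hasseDeriv i (fth p e A N B θ₀))).eval w -
        (hasseDeriv i (fth p e A N B θ₀)).eval w) -
      (dE * (sm Φ (hasseDeriv i Δ)).eval w +
        ∑ m ∈ Icc 1 N, dA m * (hasseDeriv i (sm Φ Δ ^ p ^ m)).eval w) := by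
    rw [e2]
    ring
  rw [e3]
  refine (hP.f i).neg.sub (RVal.Ge.add ?_ (RVal.Ge.sum _ _ fun m hm => ?_))
  · rw [sm_hasse]
    rw [hdE]
    refine (hP.e.mul (hb i)).mono ?_
    have h1 := hP.M 0 (Nat.zero_le _)
    rw [pow_zero, one_mul] at h1
    linarith
  · rw [hasse_powq]
    by_cases hd : p ^ m ∣ i
    · rw [if_pos hd, eval_pow]
      rw [hdA']
      refine ((hP.A m hm).mul (ge_pow (hb (i / p ^ m)) (p ^ m))).mono ?_
      have h1 := hP.M m (mem_Icc.1 hm).2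
      have h2 : (i : ℝ) = p ^ m * (i / p ^ m : ℕ) := by
        exact_mod_cast (Nat.mul_div_cancel' hd).symm
      rw [h2]
      push_cast
      nlinarith
    · rw [if_neg hd, eval_zero, mul_zero]
      exact RVal.Ge.zero

/-! ### The shape -/

/-- One term. -/
theorem shape_j (h : Mo v K w Φ η Z) (hZ : v.Ge (ρ - g) Z) {f : Polynomial Ω}
    (hX : ∀ l, 2 ≤ l → ¬ p ∣ l → hasseDeriv l f = 0) {i : ℕ} (hi : p ∣ i) (j : ℕ)
    (hj : p ∣ j → LP p v (cadj v K w) (t + j * g - (j + i : ℕ) * ρ)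
      ((hasseDeriv (j + i) f).eval w))
    (hj1 : i = 0 → j = 1 → v.Ge (t + g - ρ) ((hasseDeriv 1 f).eval w)) :
    LP p v (cadj v K w) (t - i * ρ)
      (Φ ((hasseDeriv j (hasseDeriv i f)).eval w) * (-Z) ^ j) := by
  by_cases hpj : p ∣ j
  · have h1 : LP p v (cadj v K w) (t + j * g - (j + i : ℕ) * ρ)
        ((hasseDeriv j (hasseDeriv i f)).eval w) := by
      rw [hasse_hasse, eval_mul, eval_C]
      have h2 := lp_sum (range ((j + i).choose j)) (fun _ => (hasseDeriv (j + i) f).eval w)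
        fun _ _ => hj hpj
      rwa [sum_const, card_range, nsmul_eq_mul] at h2
    refine (h.term_lp (p := p) hZ hpj h1).mono (le_of_eq ?_)
    push_cast
    ring
  · by_cases hl : 2 ≤ j + i
    · have h5 : ¬ p ∣ j + i := fun h6 => hpj ((Nat.dvd_add_left hi).1 h6)
      rw [hasse_hasse, hX _ hl h5, mul_zero, eval_zero, map_zero, zero_mul]
      exact lp_of_ge RVal.Ge.zero
    · have hj0 : j ≠ 0 := by
        rintro rfl
        exact hpj (dvd_zero p)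
      obtain ⟨rfl, rfl⟩ : j = 1 ∧ i = 0 := by omega
      rw [hasseDeriv_zero']
      refine lp_of_ge ((h.term_ge hZ 1 (hj1 rfl rfl)).mono (le_of_eq ?_))
      push_cast
      ring

/-- The size of `S (D^[i] f) - D^[i] f`. -/
theorem shape (h : Mo v K w Φ η Z) (hw : TL v K w ρ) (hZ : v.Ge (ρ - g) Z) (hg0 : 0 ≤ g)
    {f : Polynomial Ω} (hf : f ∈ PI K)
    (hX : ∀ l, 2 ≤ l → ¬ p ∣ l → hasseDeriv l f = 0) (h1 : v.Ge (ν - ρ) ((hasseDeriv 1 f).eval w))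
    (hlp : LP p v (cadj v K w) (ν - eps) (f.eval w)) (heps : 0 ≤ eps) (hL1 : 1 ≤ L)
    (hhi : ∀ l : ℕ, L < l → p ∣ l →
      LP p v (cadj v K w) (ν - l * ρ + l * g) ((hasseDeriv l f).eval w))
    {i : ℕ} (hi : p ∣ i) :
    LP p v (cadj v K w) (ν - i * ρ - (((L - i : ℕ) : ℝ) * g + eps))
      ((sm Φ (hasseDeriv i f)).eval w - (hasseDeriv i f).eval w) := by
  rw [h.S_sub (hasseDeriv i f) le_rfl]
  have hLg : 0 ≤ ((L - i : ℕ) : ℝ) * g := by positivity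
  refine lp_add ?_ (lp_sum _ _ fun j hj => ?_)
  · refine (h.null (TWLM.eval_mem_cadj (hasse_mem_PI hf i)) (LP.hjet hw hf hlp i)).lp.mono ?_
    linarith [h.pos]
  · obtain ⟨hj1, -⟩ := mem_Icc.1 hj
    refine lp_mono (shape_j (t := ν - (((L - i : ℕ) : ℝ) * g + eps)) h hZ hX hi j ?_ ?_)
      (le_of_eq (by ring))
    · intro hpj
      by_cases hl : j + i ≤ L
      · refine lp_mono (hlp.hjet hw hf (j + i)) ?_
        have h2 : (j : ℝ) * g ≤ ((L - i : ℕ) : ℝ) * g := by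
          refine mul_le_mul_of_nonneg_right ?_ hg0
          have : j ≤ L - i := by omega
          exact_mod_cast this
        linarith
      · refine lp_mono (hhi (j + i) (by omega) (Dvd.dvd.add hpj hi)) ?_
        have h2 : (j : ℝ) * g ≤ ((j + i : ℕ) : ℝ) * g := by
          refine mul_le_mul_of_nonneg_right ?_ hg0
          have : j ≤ j + i := by omega
          exact_mod_cast this
        linarith
    · rintro rfl rfl
      refine h1.mono ?_
      have h2 : (1 : ℝ) * g ≤ ((L - 0 : ℕ) : ℝ) * g := by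
        refine mul_le_mul_of_nonneg_right ?_ hg0
        have : 1 ≤ L - 0 := by omega
        exact_mod_cast this
      linarith

/-- The leading term of `S (D^[i] f) - D^[i] f`. -/
theorem shape_top (h : Mo v K w Φ η Z) (hw : TL v K w ρ) (hZ : v.Ge (ρ - g) Z) (hg0 : 0 ≤ g)
    {f : Polynomial Ω} (hf : f ∈ PI K)
    (hX : ∀ l, 2 ≤ l → ¬ p ∣ l → hasseDeriv l f = 0) (h1 : v.Ge (ν - ρ) ((hasseDeriv 1 f).eval w))
    (hlp : LP p v (cadj v K w) (ν - eps) (f.eval w)) (heps : 0 ≤ eps) (hL : p ∣ L)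
    (hhi : ∀ l : ℕ, L < l → p ∣ l →
      LP p v (cadj v K w) (ν - l * ρ + l * g) ((hasseDeriv l f).eval w))
    {i : ℕ} (hi : p ∣ i) (hiL : i < L) :
    LP p v (cadj v K w) (ν - i * ρ - (((L - i - 1 : ℕ) : ℝ) * g + eps))
      ((sm Φ (hasseDeriv i f)).eval w - (hasseDeriv i f).eval w -
        ((L.choose i : ℕ) : Ω) * Φ ((hasseDeriv L f).eval w) * (-Z) ^ (L - i)) := by
  classical
  have hp2 := hp.out.two_le
  have hL2 : 2 ≤ L := hp2.trans (Nat.le_of_dvd (by omega) hL)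
  have hLg : 0 ≤ ((L - i - 1 : ℕ) : ℝ) * g := by positivity
  set D := max (L - i) (hasseDeriv i f).natDegree with hD
  rw [h.S_sub (hasseDeriv i f) (le_max_right (L - i) _)]
  have hmem : L - i ∈ Icc 1 D := mem_Icc.2 ⟨by omega, le_max_left _ _⟩
  have e1 : Φ ((hasseDeriv (L - i) (hasseDeriv i f)).eval w) * (-Z) ^ (L - i) =
      ((L.choose i : ℕ) : Ω) * Φ ((hasseDeriv L f).eval w) * (-Z) ^ (L - i) := by
    rw [hasse_hasse, eval_mul, eval_C, map_mul, map_natCast, Nat.sub_add_cancel hiL.le,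
      Nat.choose_symm hiL.le]
  rw [← add_sum_erase _ _ hmem, e1]
  have e2 : ∀ a b c : Ω, a + (b + c) - b = a + c := fun a b c => by ring
  rw [e2]
  refine lp_add ?_ (lp_sum _ _ fun j hj => ?_)
  · refine (h.null (TWLM.eval_mem_cadj (hasse_mem_PI hf i)) (LP.hjet hw hf hlp i)).lp.mono ?_
    linarith [h.pos]
  · have hj2 := (mem_erase.1 hj).1
    obtain ⟨hj1, -⟩ := mem_Icc.1 (mem_erase.1 hj).2
    refine lp_mono (shape_j (t := ν - (((L - i - 1 : ℕ) : ℝ) * g + eps)) h hZ hX hi j ?_ ?_)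
      (le_of_eq (by ring))
    · intro hpj
      by_cases hl : j + i ≤ L
      · refine lp_mono (hlp.hjet hw hf (j + i)) ?_
        have h2 : (j : ℝ) * g ≤ ((L - i - 1 : ℕ) : ℝ) * g := by
          refine mul_le_mul_of_nonneg_right ?_ hg0
          have : j ≤ L - i - 1 := by omega
          exact_mod_cast this
        linarith
      · refine lp_mono (hhi (j + i) (by omega) (Dvd.dvd.add hpj hi)) ?_
        have h2 : (j : ℝ) * g ≤ ((j + i : ℕ) : ℝ) * g := by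
          refine mul_le_mul_of_nonneg_right ?_ hg0
          have : j ≤ j + i := by omega
          exact_mod_cast this
        linarith
    · rintro rfl rfl
      refine h1.mono ?_
      have h2 : (1 : ℝ) * g ≤ ((L - 0 - 1 : ℕ) : ℝ) * g := by
        refine mul_le_mul_of_nonneg_right ?_ hg0
        have : 1 ≤ L - 0 - 1 := by omega
        exact_mod_cast this
      linarith

/-- **(G1)**: `|D^[i] (dp Φ Δ)| ≤ ((L - Q i)^+ g + eps) / Q`. -/
theorem g1 (h : Mo v K w Φ η Z) (hw : TL v K w ρ) (hZ : v.Ge (ρ - g) Z) (hg0 : 0 ≤ g)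
    (hD : Dt p v K (cadj v K w) s ν e A N)
    (hP : Prec p v Φ w ρ s ν e A N (fth p e A N B θ₀) (e₀ + J * g) M)
    (hθ : θ ∈ PI K) (hθ₀ : θ₀ ∈ PI K) (hB : B ∈ PI K)
    (hJ : (θ - θ₀).natDegree ≤ J) (he₀ : v.Ge (s - e₀) ((θ - θ₀).eval w))
    (hX : ∀ l, 2 ≤ l → ¬ p ∣ l → hasseDeriv l (fth p e A N B θ) = 0)
    (h1 : v.Ge (ν - ρ) ((hasseDeriv 1 (fth p e A N B θ)).eval w))
    (hlp : LP p v (cadj v K w) (ν - eps) ((fth p e A N B θ).eval w)) (heps : 0 < eps)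
    (hL1 : 1 ≤ L)
    (hhi : ∀ l : ℕ, L < l → p ∣ l → LP p v (cadj v K w) (ν - l * ρ + l * g)
      ((hasseDeriv l (fth p e A N B θ)).eval w)) (i : ℕ) :
    v.Ge (s - i * ρ - (((L - p ^ N * i : ℕ) : ℝ) * g + eps) / p ^ N)
      ((hasseDeriv i (dp Φ (θ - θ₀))).eval w) := by
  have hΔ : θ - θ₀ ∈ PI K := sub_mem hθ hθ₀
  have hp1 : (1 : ℝ) ≤ p := by exact_mod_cast hp.out.one_lt.le
  have hQ0 : (0 : ℝ) < (p : ℝ) ^ N := by positivity
  have hpN : p ∣ p ^ N := dvd_pow_self p (by have := hD.N1; omega)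
  have h2 := chain (p := p) (v := v) (F := cadj v K w) (e := e) (A := A) (N := N) (ν := ν) (s := s)
    (ρ := ρ) (σ := 0) hD.N1 hD.Alp hD.top hD.ege (S := {x : ℕ × ℕ | x.2 = 0})
    (fun x hx a => by
      have hx' : x.2 = 0 := hx
      change p ^ a * x.2 = 0
      rw [hx', mul_zero]) (B := e₀ + J * g) (eps := eps)
    (h := fun i => ((L - p ^ N * i : ℕ) : ℝ) * g / p ^ N) ?_ ?_
    (r := fun i _ => (hasseDeriv i (dp Φ (θ - θ₀))).eval w)
    (fun i _ => TWLM.eval_mem_cadj (hasse_mem_PI (dp_mem h.memC hΔ) i)) ?_ ?_ heps (i, 0) rfl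
  · refine h2.mono (le_of_eq ?_)
    simp only [Nat.cast_zero]
    ring
  · intro a
    positivity
  · intro a b hab
    simp only
    refine div_le_div_of_nonneg_right (mul_le_mul_of_nonneg_right ?_ hg0) hQ0.le
    have : L - p ^ N * b ≤ L - p ^ N * a := Nat.sub_le_sub_left (Nat.mul_le_mul_left _ hab) _
    exact_mod_cast this
  · intro x hx
    refine (h.dp_ge hw hZ hg0 hΔ hJ he₀ x.1).mono ?_
    rw [mul_zero]
    linarith
  · rintro ⟨a, b⟩ hb
    have hb' : b = 0 := hb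
    subst hb'
    simp only [Nat.cast_zero, zero_mul, add_zero]
    have h3 := rel h hw hZ hg0 hP hθ hθ₀ hJ he₀ (p ^ N * a)
    have h5 := shape (i := p ^ N * a) h hw hZ hg0 (fth_mem hD hB hθ) hX h1 hlp heps.le hL1 hhi
      (hpN.mul_right a)
    have hLg : 0 ≤ ((L - p ^ N * a : ℕ) : ℝ) * g := by positivity
    have h6 := lp_add (lp_of_ge (p := p) (F := cadj v K w) (h3.mono
      (c' := ν - (p ^ N * a : ℕ) * ρ - (((L - p ^ N * a : ℕ) : ℝ) * g + eps)) (by linarith))) h5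
    rw [sub_add_cancel] at h6
    have e1 : ∀ m ∈ Icc 1 N, (hasseDeriv (p ^ N * a) (dp Φ (θ - θ₀) ^ p ^ m)).eval w =
        ((hasseDeriv (p ^ (N - m) * a) (dp Φ (θ - θ₀))).eval w) ^ p ^ m := by
      intro m hm
      have hmN := (mem_Icc.1 hm).2
      have hpm : 0 < p ^ m := Nat.pow_pos hp.out.pos
      have e2 : p ^ N * a = p ^ m * (p ^ (N - m) * a) := by
        rw [← mul_assoc, ← pow_add, Nat.add_sub_cancel' hmN]
      rw [hasse_powq, if_pos ⟨_, e2⟩, eval_pow, e2, Nat.mul_div_cancel_left _ hpm]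
    rw [sum_congr rfl fun m hm => by rw [e1 m hm]] at h6
    refine lp_mono h6 (le_of_eq ?_)
    push_cast
    field_simp

/-- **The leading term of the relation** `(R_i)`, `p ∣ i`, `i < L`. -/
theorem key (h : Mo v K w Φ η Z) (hw : TL v K w ρ) (hZ : v.Ge (ρ - g) Z) (hg0 : 0 ≤ g)
    (hD : Dt p v K (cadj v K w) s ν e A N)
    (hP : Prec p v Φ w ρ s ν e A N (fth p e A N B θ₀) (e₀ + J * g) M)
    (hθ : θ ∈ PI K) (hθ₀ : θ₀ ∈ PI K) (hB : B ∈ PI K)
    (hJ : (θ - θ₀).natDegree ≤ J) (he₀ : v.Ge (s - e₀) ((θ - θ₀).eval w))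
    (hX : ∀ l, 2 ≤ l → ¬ p ∣ l → hasseDeriv l (fth p e A N B θ) = 0)
    (h1 : v.Ge (ν - ρ) ((hasseDeriv 1 (fth p e A N B θ)).eval w))
    (hlp : LP p v (cadj v K w) (ν - eps) ((fth p e A N B θ).eval w)) (heps : 0 < eps)
    (hL1 : 1 ≤ L) (hL : p ∣ L)
    (hhi : ∀ l : ℕ, L < l → p ∣ l → LP p v (cadj v K w) (ν - l * ρ + l * g)
      ((hasseDeriv l (fth p e A N B θ)).eval w)) {i : ℕ} (hi : p ∣ i) (hiL : i < L) :
    LP p v (cadj v K w) (ν - i * ρ - (((L - i - 1 : ℕ) : ℝ) * g + eps))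
      (((L.choose i : ℕ) : Ω) * Φ ((hasseDeriv L (fth p e A N B θ)).eval w) * (-Z) ^ (L - i) -
        A N * (hasseDeriv i (dp Φ (θ - θ₀) ^ p ^ N)).eval w) := by
  have hp2 := hp.out.two_le
  have hp0 := hp.out.pos
  have hL2 : 2 ≤ L := hp2.trans (Nat.le_of_dvd (by omega) hL)
  have hΔ : θ - θ₀ ∈ PI K := sub_mem hθ hθ₀
  have hG1 := g1 h hw hZ hg0 hD hP hθ hθ₀ hB hJ he₀ hX h1 hlp heps hL1 hhi
  -- the bound of one term
  have hterm : ∀ m : ℕ, m < N → ∀ a : ℕ, i = p ^ m * a →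
      v.Ge (s - a * ρ - (((L - i - 1 : ℕ) : ℝ) * g + eps) / p ^ m)
        ((hasseDeriv a (dp Φ (θ - θ₀))).eval w) := by
    intro m hm a ha
    have hpm : 0 < p ^ m := Nat.pow_pos hp0
    have eN : p ^ N = p ^ (N - m) * p ^ m := by
      rw [← pow_add, Nat.sub_add_cancel hm.le]
    refine (hG1 a).mono ?_
    have h4 : 2 ≤ p ^ (N - m) := hp2.trans (Nat.le_self_pow (by omega) p)
    have h5 : L - p ^ N * a ≤ p ^ (N - m) * (L - i - 1) := by
      have h6 := ineq1 h4 hL2 hiL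
      have e2 : p ^ (N - m) * i = p ^ N * a := by
        rw [eN, ha]
        ring
      rwa [e2] at h6
    have h5' : ((L - p ^ N * a : ℕ) : ℝ) * g ≤ (p : ℝ) ^ (N - m) * ((L - i - 1 : ℕ) : ℝ) * g := by
      refine mul_le_mul_of_nonneg_right ?_ hg0
      exact_mod_cast h5
    have hpmR : (0 : ℝ) < (p : ℝ) ^ m := by
      have : (0 : ℝ) < p := by exact_mod_cast hp0
      positivity
    have hpNm : (0 : ℝ) < (p : ℝ) ^ (N - m) := by
      have : (0 : ℝ) < p := by exact_mod_cast hp0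
      positivity
    have eNR : (p : ℝ) ^ N = p ^ (N - m) * p ^ m := by
      rw [← pow_add, Nat.sub_add_cancel hm.le]
    have h6 : (((L - p ^ N * a : ℕ) : ℝ) * g + eps) / (p : ℝ) ^ N ≤
        (((L - i - 1 : ℕ) : ℝ) * g + eps) / p ^ m := by
      rw [eNR, div_le_div_iff₀ (by positivity) hpmR]
      have h7 : (1 : ℝ) ≤ (p : ℝ) ^ (N - m) := one_le_pow₀ (by exact_mod_cast hp0)
      have h8 : eps ≤ (p : ℝ) ^ (N - m) * eps := le_mul_of_one_le_left heps.le h7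
      nlinarith
    linarith
  -- the linear term
  have h2 : LP p v (cadj v K w) (ν - i * ρ - (((L - i - 1 : ℕ) : ℝ) * g + eps))
      (e * (hasseDeriv i (dp Φ (θ - θ₀))).eval w) := by
    have h3 := hterm 0 (by have := hD.N1; omega) i (by simp)
    refine lp_of_ge ((hD.ege.mul h3).mono (le_of_eq ?_))
    rw [pow_zero, div_one]
    ring
  -- the lower terms
  have h3 : LP p v (cadj v K w) (ν - i * ρ - (((L - i - 1 : ℕ) : ℝ) * g + eps))
      (∑ m ∈ Ico 1 N, A m * (hasseDeriv i (dp Φ (θ - θ₀) ^ p ^ m)).eval w) := by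
    refine lp_sum _ _ fun m hm => ?_
    obtain ⟨hm1, hmN⟩ := mem_Ico.1 hm
    rw [hasse_powq]
    by_cases hd : p ^ m ∣ i
    · rw [if_pos hd, eval_pow]
      have hpm : 0 < p ^ m := Nat.pow_pos hp0
      have ha : i = p ^ m * (i / p ^ m) := (Nat.mul_div_cancel' hd).symm
      have h4 := lp_mul_powq (hD.Alp m (mem_Icc.2 ⟨hm1, hmN.le⟩))
        (TWLM.eval_mem_cadj (hasse_mem_PI (dp_mem h.memC hΔ) (i / p ^ m))) hm1 (hterm m hmN _ ha)
      refine lp_mono h4 (le_of_eq ?_)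
      have ha' : (i : ℝ) = p ^ m * (i / p ^ m : ℕ) := by exact_mod_cast ha
      have hpmR : (0 : ℝ) < (p : ℝ) ^ m := by
        have : (0 : ℝ) < p := by exact_mod_cast hp0
        positivity
      rw [ha']
      field_simp
      ring
    · rw [if_neg hd, eval_zero, mul_zero]
      exact lp_of_ge RVal.Ge.zero
  -- the relation
  have h4 := rel h hw hZ hg0 hP hθ hθ₀ hJ he₀ i
  have h6 := shape_top h hw hZ hg0 (fth_mem hD hB hθ) hX h1 hlp heps.le hL hhi hi hiL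
  have h7 : LP p v (cadj v K w) (ν - i * ρ - (((L - i - 1 : ℕ) : ℝ) * g + eps)) _ :=
    lp_of_ge (h4.mono (by
      have : 0 ≤ ((L - i - 1 : ℕ) : ℝ) * g := by positivity
      linarith))
  have h8 := ((h2.add h3).sub h7).sub h6
  have e2 : Icc 1 N = insert N (Ico 1 N) := by
    ext c
    rw [mem_insert, mem_Icc, mem_Ico]
    have := hD.N1
    omega
  rw [e2, sum_insert (by simp)] at h8
  convert h8 using 1
  ring

end Pool.Agent.TWRT
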