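import Pool.Agent.Lib.TWRT.RT1

/-!
# TANK W, contact (III.1), RAT for a family: (G2), the improvement of `R`

* `exists_leadR`: the leading term of the relation at one motion;
* `g2_step`: if `D^[l] f` is null for `l > L`, `p ∣ l`, and `L > Q J`, then `R` can be changed so
  that this holds for `l ≥ L`;
* `exists_R`: an admissible `R` with `D^[l] f` null for all `l > Q J`, `p ∣ l`.
-/

set_option autoImplicit false
set_option linter.unusedSectionVars false

open Polynomial Finset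

namespace Pool.Agent.TWRT

open Pool.Agent.H15JM (RVal)
open Pool.Agent.TWM
open Pool.Agent.TWS (IsoE)
open Pool.Agent.TWII (PG LP)
open Pool.Agent.TWN1

universe u

variable {k Ω : Type u} [Field k] [Field Ω] [Algebra k Ω] {v : RVal Ω}
  {K : IntermediateField k Ω} {Φ : Ω →ₐ[k] Ω} {w y Z : Ω} {η ρ ν g : ℝ}
  {p : ℕ} [hp : Fact p.Prime] [CharP Ω p] [IsAlgClosed Ω]
  {e : Ω} {A : ℕ → Ω} {N J L : ℕ} {B R θ θ₀ : Polynomial Ω} {s M b e₀ eps t : ℝ}

/-- A motion with a given precision at a given base point. -/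
theorem exists_prec (hF : Fam v K w ρ) (hD : Dt p v K (cadj v K w) s ν e A N)
    {f₀ : Polynomial Ω} (hf₀ : f₀ ∈ PI K) (e₀ : ℝ) (J : ℕ) {ε : ℝ} (hε : 0 < ε) :
    ∃ (Φ : Ω →ₐ[k] Ω) (η : ℝ) (Z : Ω) (g M : ℝ), Mo v K w Φ η Z ∧
      Prec p v Φ w ρ s ν e A N f₀ (e₀ + J * g) M ∧ Z ≠ 0 ∧ 0 < g ∧ g < ε ∧ v Z = ρ - g := by
  classical
  obtain ⟨M, hM⟩ := Finset.exists_le
    (((range (f₀.natDegree + 1)).image fun i : ℕ => ν - i * ρ + 1) ∪
      ((range (N + 1)).image fun m : ℕ => ν + 1 - p ^ m * (s - (e₀ + J))))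
  obtain ⟨Φ, η, Z, g, hMo, hS, hZ0, hg0, hgε, hvZ⟩ := hF
    ((insert (C e) ((Icc 1 N).image fun m => C (A m))) ∪
      (range (f₀.natDegree + 1)).image fun i => hasseDeriv i f₀) (fun f hf => by
      rcases mem_union.1 hf with h1 | h1
      · rcases mem_insert.1 h1 with rfl | h2
        · exact C_mem_PI hD.eC
        · obtain ⟨m, hm, rfl⟩ := mem_image.1 h2
          exact C_mem_PI (hD.AC m hm)
      · obtain ⟨i, -, rfl⟩ := mem_image.1 h1
        exact hasse_mem_PI hf₀ i) M (min 1 ε) (lt_min one_pos hε)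
  refine ⟨Φ, η, Z, g, M, hMo, ⟨?_, fun m hm => ?_, fun i => ?_, fun m hm => ?_⟩, hZ0, hg0,
    hgε.trans_le (min_le_right _ _), hvZ⟩
  · have h1 := hS (C e) (mem_union_left _ (mem_insert_self _ _))
    rwa [sm_C, eval_C, eval_C] at h1
  · have h1 := hS (C (A m)) (mem_union_left _ (mem_insert_of_mem (mem_image.2 ⟨m, hm, rfl⟩)))
    rwa [sm_C, eval_C, eval_C] at h1
  · by_cases hi : i ≤ f₀.natDegree
    · refine (hS (hasseDeriv i f₀) (mem_union_right _
        (mem_image.2 ⟨i, mem_range.2 (by omega), rfl⟩))).mono ?_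
      exact hM _ (mem_union_left _ (mem_image.2 ⟨i, mem_range.2 (by omega), rfl⟩))
    · rw [hasseDeriv_eq_zero_of_lt_natDegree _ _ (by omega), sm_zero, eval_zero, sub_zero]
      exact RVal.Ge.zero
  · have h1 := hM _ (mem_union_right _ (mem_image.2 ⟨m, mem_range.2 (by omega), rfl⟩))
    have h2 : (J : ℝ) * g ≤ J := by
      have h3 : g ≤ 1 := (hgε.trans_le (min_le_left _ _)).le
      have h4 : (0 : ℝ) ≤ J := Nat.cast_nonneg J
      nlinarith
    have h5 : (0 : ℝ) ≤ (p : ℝ) ^ m := by positivity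
    have h6 : (p : ℝ) ^ m * (s - (e₀ + J)) ≤ p ^ m * (s - (e₀ + J * g)) :=
      mul_le_mul_of_nonneg_left (by linarith) h5
    linarith

/-- Division of the leading term by `z ^ (L - i)`. -/
theorem lead_div {F : IntermediateField k Ω} {x z : Ω} {i : ℕ} (hz : z ∈ F) (hz0 : z ≠ 0)
    (hvz : v z = ρ - g) (hi : p ∣ i) (hL : p ∣ L) (hiL : i < L) (heg : eps < g)
    (hx : LP p v F (ν - i * ρ - (((L - i - 1 : ℕ) : ℝ) * g + eps)) (x * z ^ (L - i))) :
    PG p v F (ν - L * ρ) x :=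
  TWN1.lead_div (n' := 0) (σ := 0) hz hz0 (by rw [hvz]; ring) hi hL hiL heg
    (lp_mono hx (by
      rw [mul_zero]
      linarith))

/-- The data of (G2) at one motion. -/
theorem exists_leadR (hF : Fam v K w ρ) (hw : TL v K w ρ)
    (hR : Nrm p v K w y ρ s ν e A N B J R) (hpL : p ∣ L) (hJL : p ^ N * J < L)
    (hhi : ∀ l : ℕ, L < l → p ∣ l →
      PG p v (cadj v K w) (ν - l * ρ) ((hasseDeriv l (fth p e A N B R)).eval w)) :
    ∃ (g eps : ℝ) (z : Ω) (Δ : Polynomial Ω), 0 < eps ∧ eps < g ∧ z ∈ K ∧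
      z ≠ 0 ∧ v z = ρ - g ∧ Δ ∈ PI K ∧ (e ≠ 0 → ∀ l, ¬ p ∣ l → hasseDeriv l Δ = 0) ∧
      ∀ i : ℕ, p ∣ i → i < L → LP p v (cadj v K w)
        (ν - i * ρ - (((L - i - 1 : ℕ) : ℝ) * g + eps))
        (((L.choose i : ℕ) : Ω) * (hasseDeriv L (fth p e A N B R)).eval w * z ^ (L - i) -
          A N * (hasseDeriv i (Δ ^ p ^ N)).eval w) := by
  classical
  have hD := hR.toDt
  have hL0 : L ≠ 0 := by omega
  -- the margins
  obtain ⟨D, hDeg⟩ : ∃ D : ℕ, D = (fth p e A N B R).natDegree := ⟨_, rfl⟩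
  obtain ⟨η, hη, hη1⟩ := exists_min_pos (range (D + 1))
    (fun l a => L < l → p ∣ l → PC p v (cadj v K w) (ν - l * ρ + a)
      ((hasseDeriv l (fth p e A N B R)).eval w))
    (fun l a b hab h1 h2 h3 => (h1 h2 h3).mono (by linarith))
    (fun l _ => by
      by_cases h1 : L < l ∧ p ∣ l
      · obtain ⟨a, ha, h2⟩ := PG.exists_pc (hhi l h1.1 h1.2)
        exact ⟨a, ha, fun _ _ => h2⟩
      · exact ⟨1, one_pos, fun h2 h3 => absurd ⟨h2, h3⟩ h1⟩)
  have hη2 : ∀ (g' : ℝ) (l : ℕ), 0 ≤ g' → (D + 1) * g' ≤ η → L < l → p ∣ l →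
      LP p v (cadj v K w) (ν - l * ρ + l * g')
        ((hasseDeriv l (fth p e A N B R)).eval w) := by
    intro g' l hg' hDg hl hpl
    by_cases h1 : l ≤ D
    · refine lp_mono (hη1 l (mem_range.2 (by omega)) hl hpl).lp ?_
      have h2 : (l : ℝ) * g' ≤ (D + 1) * g' := by
        refine mul_le_mul_of_nonneg_right ?_ hg'
        have : l ≤ D + 1 := by omega
        exact_mod_cast this
      linarith
    · rw [hasseDeriv_eq_zero_of_lt_natDegree _ _ (by omega), eval_zero]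
      exact lp_of_ge RVal.Ge.zero
  -- the base point
  obtain ⟨θ₀, hθ₀, hc₀, hX₀, hy₀, -⟩ := hR.fam 1 one_pos
  have hf₀ := fth_mem hD hR.BC hθ₀
  -- the motion
  obtain ⟨Φ, η', Z, g, M, hMo, hP, hZ0, hg0, hgη, hvZ⟩ := exists_prec hF hD hf₀ 1 J
    (ε := η / (D + 1)) (by positivity)
  have hgD : ((D : ℝ) + 1) * g ≤ η := by
    rw [lt_div_iff₀ (by positivity)] at hgη
    linarith
  have hZg : v.Ge (ρ - g) Z := fun _ => hvZ.ge
  obtain ⟨eps, heps⟩ : ∃ eps : ℝ, eps = max (g / 2) (g - η' / 2) := ⟨_, rfl⟩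
  have heps0 : 0 < eps := by
    rw [heps]
    exact (half_pos hg0).trans_le (le_max_left _ _)
  have hepsg : eps < g := by
    rw [heps]
    exact max_lt (by linarith) (by linarith [hMo.pos])
  have hepsη : g - η' / 2 ≤ eps := by
    rw [heps]
    exact le_max_right _ _
  -- the approximant
  obtain ⟨θ, hθ, hcθ, hXθ, hyθ, hlθ⟩ := hR.fam (min 1 eps) (lt_min one_pos heps0)
  have hdθ := deg_of_coeff hcθ
  have hΔd : (θ - θ₀).natDegree ≤ J := deg_of_coeff fun i hi => by rw [hcθ i hi, hc₀ i hi]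
  have hΔv : v.Ge (s - 1) ((θ - θ₀).eval w) := by
    have e1 : (θ - θ₀).eval w = (y - θ₀.eval w) - (y - θ.eval w) := by
      rw [eval_sub]
      ring
    rw [e1]
    exact hy₀.sub (hyθ.mono (by linarith [min_le_left 1 eps]))
  have hΔm : θ - θ₀ ∈ PI K := sub_mem hθ hθ₀
  refine ⟨g, eps, -Z, dp Φ (θ - θ₀), heps0, hepsg, neg_mem hMo.Zm, neg_ne_zero.2 hZ0,
    by rw [v.map_neg _ hZ0, hvZ], dp_mem hMo.memC hΔm, fun he l hl => ?_, fun i hpi hiL => ?_⟩
  · rw [dp_hasse, map_sub, hXθ he l hl, hX₀ he l hl, sub_zero, dp, sm_zero, sub_zero]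
  have h1 := key (L := L) hMo hw hZg hg0.le hD hP hθ hθ₀ hR.BC hΔd hΔv (hR.clsX hXθ)
    (hR.cls1 hXθ) (lp_mono hlθ (by linarith [min_le_right 1 eps])) heps0 (by omega) hpL
    (fun l hl hpl => by
      rw [hasse_fth_eq hdθ (by omega)]
      exact hη2 g l hg0.le hgD hl hpl) hpi hiL
  rw [hasse_fth_eq hdθ hJL] at h1
  -- from `Φ E` to `E`
  obtain ⟨E, hE⟩ : ∃ E : Ω, E = (hasseDeriv L (fth p e A N B R)).eval w := ⟨_, rfl⟩
  rw [← hE] at h1 ⊢
  have hElp : LP p v (cadj v K w) (ν - L * ρ) E := by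
    rw [hE]
    exact hR.lev_high hw hJL
  have hEF : E ∈ cadj v K w := by
    rw [hE, ← hasse_fth_eq hdθ hJL]
    exact TWLM.eval_mem_cadj (hasse_mem_PI (fth_mem hD hR.BC hθ) L)
  obtain ⟨l, hl⟩ : p ∣ L - i := Nat.dvd_sub hpL hpi
  have h2 : LP p v (cadj v K w) (ν - i * ρ - (((L - i - 1 : ℕ) : ℝ) * g + eps))
      ((Φ E - E) * (-Z) ^ (L - i)) := by
    have h3 := (hMo.null (p := p) hEF hElp).lp
    have h4 : v.Ge ((L - i : ℕ) * (ρ - g)) (((-Z) ^ l) ^ p) := by
      rw [← pow_mul, mul_comm l p, ← hl]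
      exact ge_pow hZg.neg _
    have h5 := LP.mul_pow h3 (pow_mem (neg_mem (le_cadj v K w hMo.Zm)) l) h4
    rw [← pow_mul, mul_comm l p, ← hl] at h5
    refine lp_mono h5 ?_
    rw [Nat.cast_sub (by omega : 1 ≤ L - i), Nat.cast_sub hiL.le]
    push_cast
    linarith
  have h3 := lp_sum (range (L.choose i)) (fun _ => (Φ E - E) * (-Z) ^ (L - i)) fun _ _ => h2
  rw [sum_const, card_range, nsmul_eq_mul] at h3
  have h4 := h1.sub h3
  convert h4 using 1
  ring

/-- **(G2)**. -/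
theorem g2_step (hF : Fam v K w ρ) (hw : TL v K w ρ) (hJ1 : 1 ≤ J)
    (hR : Nrm p v K w y ρ s ν e A N B J R) (hJL : p ^ N * J < L)
    (hhi : ∀ l : ℕ, L < l → p ∣ l →
      PG p v (cadj v K w) (ν - l * ρ) ((hasseDeriv l (fth p e A N B R)).eval w)) :
    ∃ R' : Polynomial Ω, Nrm p v K w y ρ s ν e A N B J R' ∧ ∀ l : ℕ, L ≤ l → p ∣ l →
      PG p v (cadj v K w) (ν - l * ρ) ((hasseDeriv l (fth p e A N B R')).eval w) := by
  classical
  have hp0 := hp.out.pos
  have hp2 := hp.out.two_le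
  have hD := hR.toDt
  have hN := hD.N1
  by_cases hbad : p ∣ L → PG p v (cadj v K w) (ν - L * ρ)
      ((hasseDeriv L (fth p e A N B R)).eval w)
  · refine ⟨R, hR, fun l hl hpl => ?_⟩
    rcases hl.eq_or_lt with rfl | h1
    exacts [hbad hpl, hhi l h1 hpl]
  push Not at hbad
  obtain ⟨hpL, hbad⟩ := hbad
  obtain ⟨g, eps, z, Δ, heps, heg, hz, hz0, hvz, hΔ, hΔX, hlead⟩ :=
    exists_leadR hF hw hR hpL hJL hhi
  have hzF := le_cadj v K w hz
  -- a non vanishing leading term with vanishing top term is absurd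
  have habs : ∀ i : ℕ, p ∣ i → i < L → ¬ p ∣ L.choose i →
      (hasseDeriv i (Δ ^ p ^ N)).eval w ≠ 0 := by
    intro i hpi hiL hch h0
    have h1 := hlead i hpi hiL
    rw [h0, mul_zero, sub_zero] at h1
    exact hbad (PG.of_natCast_mul hch (lead_div hzF hz0 hvz hpi hpL hiL heg h1))
  have hQJ : p ^ N ≤ p ^ N * J := Nat.le_mul_of_pos_right _ (by omega)
  -- `Q ∣ L`
  have hQL : p ^ N ∣ L := by
    by_contra hnd
    obtain ⟨a, m, hpm, hLa⟩ := Nat.exists_eq_pow_mul_and_not_dvd (n := L) (by omega) p hp.out.ne_one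
    have haN : a < N := by
      by_contra h1
      exact hnd ((pow_dvd_pow p (not_lt.1 h1)).trans ⟨m, hLa⟩)
    have ha1 : 1 ≤ a := by
      by_contra h1
      have h2 : a = 0 := by omega
      rw [h2, pow_zero, one_mul] at hLa
      exact hpm (hLa ▸ hpL)
    have h3 : p ^ a < p ^ N := Nat.pow_lt_pow_right hp.out.one_lt haN
    refine habs (p ^ a) (dvd_pow_self p (by omega)) (by omega) ?_ ?_
    · have h4 := dvd_choose_pow p a m 1
      rw [mul_one, ← hLa, Nat.choose_one_right] at h4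
      rwa [h4]
    · rw [hasse_powq, if_neg, eval_zero]
      intro h4
      exact absurd (Nat.le_of_dvd (Nat.pow_pos hp0) h4) (not_le.2 h3)
  obtain ⟨j, hLj⟩ := hQL
  have hQ0 : 0 < p ^ N := Nat.pow_pos hp0
  have hJj : J < j := by
    rw [hLj] at hJL
    exact lt_of_mul_lt_mul_left hJL (Nat.zero_le _)
  have hL0 : 0 < L := by omega
  have hdvQ : p ∣ p ^ N := dvd_pow_self p (by omega)
  -- `e ≠ 0 → p ∣ j`
  have hpj : e ≠ 0 → p ∣ j := by
    intro he
    by_contra hnd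
    have hlt : p ^ N < L := by
      rw [hLj]
      calc p ^ N = p ^ N * 1 := (mul_one _).symm
        _ < p ^ N * j := Nat.mul_lt_mul_of_pos_left (by omega) hQ0
    refine habs (p ^ N) hdvQ hlt ?_ ?_
    · have h4 := dvd_choose_pow p N j 1
      rw [mul_one, ← hLj, Nat.choose_one_right] at h4
      rwa [h4]
    · rw [hasse_powq, if_pos dvd_rfl, Nat.div_self hQ0, hΔX he 1 (Nat.Prime.not_dvd_one hp.out),
        zero_pow hQ0.ne', eval_zero]
  -- the binomial coefficients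
  have hbin : ∀ i, J < i → i < j → p ∣ j.choose i := by
    intro i hi hij
    by_contra hnd
    obtain ⟨θ, hθ, hcθ, hXθ, -, -⟩ := hR.fam 1 one_pos
    have hQi : p ^ N * J < p ^ N * i := Nat.mul_lt_mul_of_pos_left hi hQ0
    have hQij : p ^ N * i < L := by
      rw [hLj]
      exact Nat.mul_lt_mul_of_pos_left hij hQ0
    have hdQi : p ∣ p ^ N * i := hdvQ.mul_right i
    have h1 := hF.h0 (p := p) hw (ν := ν - (p ^ N * i : ℕ) * ρ)
      (f := hasseDeriv (p ^ N * i) (fth p e A N B θ)) (hasse_mem_PI (fth_mem hD hR.BC hθ) _)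
      (by
        rw [hasse_fth_eq (deg_of_coeff hcθ) hQi]
        exact hR.lev_high hw hQi) (i := L - p ^ N * i) (by omega) (Nat.dvd_sub hpL hdQi)
    rw [hasse_hasse, eval_mul, eval_C, Nat.sub_add_cancel hQij.le,
      hasse_fth_eq (deg_of_coeff hcθ) hJL] at h1
    refine hbad (PG.of_natCast_mul (n := L.choose (L - p ^ N * i)) ?_ (h1.mono (le_of_eq ?_)))
    · rw [Nat.choose_symm hQij.le, hLj, dvd_choose_pow]
      exact hnd
    · rw [Nat.cast_sub hQij.le]
      ring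
  -- the leading coefficient
  set E : Ω := (hasseDeriv L (fth p e A N B R)).eval w with hE
  obtain ⟨P, hPdef⟩ : ∃ P : Ω, P = Δ.eval w := ⟨_, rfl⟩
  have hPF : P ∈ cadj v K w := by
    rw [hPdef]
    exact TWLM.eval_mem_cadj hΔ
  set t₁ : Ω := P / z ^ j with ht₁
  have ht₁F : t₁ ∈ cadj v K w := div_mem hPF (pow_mem hzF j)
  have hlt1 := hlead 0 (dvd_zero p) hL0
  have e1 : ((L.choose 0 : ℕ) : Ω) * E * z ^ (L - 0) -
      A N * (hasseDeriv 0 (Δ ^ p ^ N)).eval w =
      (E - A N * t₁ ^ p ^ N) * z ^ (L - 0) := by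
    rw [hasseDeriv_zero', eval_pow, ← hPdef, ht₁, Nat.choose_zero_right, Nat.cast_one, one_mul,
      Nat.sub_zero, div_pow, ← pow_mul, mul_comm j, ← hLj]
    have : z ^ L ≠ 0 := pow_ne_zero _ hz0
    field_simp
  rw [e1] at hlt1
  have h2 : PG p v (cadj v K w) (ν - L * ρ) (E - A N * t₁ ^ p ^ N) :=
    lead_div hzF hz0 hvz (dvd_zero p) hpL hL0 heg hlt1
  -- the size of `t₁`
  have h3 : v.Ge (s - j * ρ) t₁ := by
    refine top_ge hN hD.top ht₁F ?_
    have h4 := (hR.lev_high hw hJL).sub (lp_of_pg h2)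
    rw [← hE] at h4
    have e2 : E - (E - A N * t₁ ^ p ^ N) = A N * t₁ ^ p ^ N := by ring
    rw [e2] at h4
    refine lp_mono h4 (le_of_eq ?_)
    rw [hLj]
    push_cast
    ring
  -- the approximation in `K`
  obtain ⟨r, hr, hrt⟩ : ∃ r ∈ K, Gt v (s - j * ρ) (t₁ + r) := by
    by_cases h0 : t₁ = 0
    · exact ⟨0, K.zero_mem, by rw [h0, add_zero]; exact Gt.zero⟩
    · obtain ⟨a, ha, h4⟩ := hw.imm.imm t₁ ht₁F h0
      refine ⟨-a, neg_mem ha, ?_⟩
      rw [← sub_eq_add_neg]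
      exact h4.mono (h3 h0)
  have hrv : v.Ge (s - j * ρ) r := by
    have e2 : r = (t₁ + r) - t₁ := by ring
    rw [e2]
    exact hrt.ge.sub h3
  have hR' := hR.addR hw hr hrv hJj hbin hpj
  refine ⟨R + monomial j r, hR', fun l hl hpl => ?_⟩
  -- the difference
  have hmdeg : (monomial j r).natDegree ≤ j := natDegree_monomial_le r
  have e3 : fth p e A N B (R + monomial j r) = fth p e A N B R +
      (C e * monomial j r + ∑ i ∈ Icc 1 N, C (A i) * monomial j r ^ p ^ i) := by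
    have h4 := fth_sub (p := p) e A N B (R + monomial j r) R
    rw [add_sub_cancel_left] at h4
    rw [← h4]
    ring
  have hdeg := fdiff_deg (p := p) (J := j) e A N hmdeg
  rw [← hLj] at hdeg
  rcases hl.eq_or_lt with rfl | hlt
  · -- the coefficient of degree `L`
    have hcoef : (C e * monomial j r + ∑ i ∈ Icc 1 N, C (A i) * monomial j r ^ p ^ i).coeff L =
        A N * r ^ p ^ N := by
      have hjL : j < L := by
        rw [hLj]
        have h4 : 2 ≤ p ^ N := hp2.trans (Nat.le_self_pow (by omega) p)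
        have h5 : 2 * j ≤ p ^ N * j := Nat.mul_le_mul_right _ h4
        omega
      rw [coeff_add, coeff_C_mul, coeff_monomial, if_neg hjL.ne, mul_zero, zero_add,
        finsetSum_coeff, sum_eq_single N]
      · rw [coeff_C_mul, monomial_pow, coeff_monomial, if_pos (by rw [hLj, mul_comm])]
      · intro m hm hmN
        have hmN' : m < N := lt_of_le_of_ne (mem_Icc.1 hm).2 hmN
        rw [coeff_C_mul, monomial_pow, coeff_monomial, if_neg, mul_zero]
        rw [hLj, mul_comm]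
        intro h4
        have h5 : p ^ m = p ^ N := Nat.eq_of_mul_eq_mul_right (by omega) h4
        exact hmN'.ne (Nat.pow_right_injective hp2 h5)
      · intro h4
        exact absurd (mem_Icc.2 ⟨hN, le_rfl⟩) h4
    have hconst : hasseDeriv L (C e * monomial j r +
        ∑ i ∈ Icc 1 N, C (A i) * monomial j r ^ p ^ i) = C (A N * r ^ p ^ N) := by
      rw [← hcoef]
      ext i
      rw [hasseDeriv_coeff, coeff_C]
      split_ifs with hi
      · rw [hi, zero_add, Nat.choose_self, Nat.cast_one, one_mul]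
      · rw [coeff_eq_zero_of_natDegree_lt (by omega), mul_zero]
    rw [e3, map_add, hconst, eval_add, eval_C, ← hE]
    have e4 : E + A N * r ^ p ^ N = (E - A N * t₁ ^ p ^ N) + A N * (t₁ + r) ^ p ^ N := by
      rw [add_pow_char_pow]
      ring
    rw [e4]
    refine h2.add ?_
    obtain ⟨η, hη, h4⟩ := TWLM.exists_ge_of_gt hrt
    refine pg_of_lp (lp_mul_powq (hD.Alp N (mem_Icc.2 ⟨hN, le_rfl⟩))
      (add_mem ht₁F (le_cadj v K w hr)) hN h4) ?_
    have h5 : (0 : ℝ) < (p : ℝ) ^ N * η := by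
      have : (0 : ℝ) < p := by exact_mod_cast hp0
      positivity
    rw [hLj]
    push_cast
    nlinarith
  · rw [e3, map_add, hasseDeriv_eq_zero_of_lt_natDegree _ _ (hdeg.trans_lt hlt), add_zero]
    exact hhi l hlt hpl

/-- **(G2), conclusion**: an admissible `R` with `D^[l] f` null for all `l > Q J`, `p ∣ l`. -/
theorem exists_R (hF : Fam v K w ρ) (hw : TL v K w ρ) (hJ1 : 1 ≤ J)
    (hR : Nrm p v K w y ρ s ν e A N B J R) :
    ∃ R' : Polynomial Ω, Nrm p v K w y ρ s ν e A N B J R' ∧ ∀ l : ℕ, p ^ N * J < l → p ∣ l →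
      PG p v (cadj v K w) (ν - l * ρ) ((hasseDeriv l (fth p e A N B R')).eval w) := by
  have key : ∀ (m : ℕ) (R : Polynomial Ω), Nrm p v K w y ρ s ν e A N B J R →
      (∀ l : ℕ, p ^ N * J + m < l → p ∣ l →
        PG p v (cadj v K w) (ν - l * ρ) ((hasseDeriv l (fth p e A N B R)).eval w)) →
      ∃ R' : Polynomial Ω, Nrm p v K w y ρ s ν e A N B J R' ∧ ∀ l : ℕ, p ^ N * J < l → p ∣ l →
        PG p v (cadj v K w) (ν - l * ρ) ((hasseDeriv l (fth p e A N B R')).eval w) := by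
    intro m
    induction m with
    | zero => exact fun R hR h1 => ⟨R, hR, h1⟩
    | succ m ih =>
      intro R hR h1
      obtain ⟨R', hR', h2⟩ := g2_step (L := p ^ N * J + m + 1) hF hw hJ1 hR (by omega)
        fun l hl hpl => h1 l (by omega) hpl
      exact ih R' hR' fun l hl hpl => h2 l (by omega) hpl
  refine key (fth p e A N B R).natDegree R hR fun l hl hpl => ?_
  rw [hasseDeriv_eq_zero_of_lt_natDegree _ _ (by omega), eval_zero]
  exact .of_gt Gt.zero

end Pool.Agent.TWRT
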