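import Pool.Agent.Lib.TWRT.RT2
import Pool.Agent.Lib.TWN1.RatB

/-!
# TANK W, contact (III.1), RAT for a family: (G3) and the conclusion

* `top_jet`: the top visible jet is attained;
* `nrm_step`: `J` drops;
* `rat`: by induction, `y - g(w)` has constant approximants.
-/

set_option autoImplicit false
set_option linter.unusedSectionVars false

open Polynomial Finset

namespace Pool.Agent.TWRT

open Pool.Agent.H15JM (RVal)
open Pool.Agent.TWM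
open Pool.Agent.TWS (IsoE)
open Pool.Agent.TWII (PG LP)
open Pool.Agent.TWN1

universe u

variable {k Ω : Type u} [Field k] [Field Ω] [Algebra k Ω] {v : RVal Ω}
  {K : IntermediateField k Ω} {Φ : Ω →ₐ[k] Ω} {w y Z : Ω} {η ρ ν g : ℝ}
  {p : ℕ} [hp : Fact p.Prime] [CharP Ω p] [IsAlgClosed Ω]
  {e : Ω} {A : ℕ → Ω} {N J L : ℕ} {B R θ θ₀ : Polynomial Ω} {s M b e₀ eps t : ℝ}

omit [CharP Ω p] [IsAlgClosed Ω] in
/-- The margin of the high jets. -/
theorem exists_margin {f : Polynomial Ω} (hhi : ∀ l : ℕ, L < l → p ∣ l →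
      PG p v (cadj v K w) (ν - l * ρ) ((hasseDeriv l f).eval w)) :
    ∃ μ : ℝ, 0 < μ ∧ ∀ (g' : ℝ) (l : ℕ), 0 ≤ g' → g' ≤ μ → L < l → p ∣ l →
      LP p v (cadj v K w) (ν - l * ρ + l * g') ((hasseDeriv l f).eval w) := by
  classical
  obtain ⟨D, hDeg⟩ : ∃ D : ℕ, D = f.natDegree := ⟨_, rfl⟩
  obtain ⟨η, hη, hη1⟩ := exists_min_pos (range (D + 1))
    (fun l a => L < l → p ∣ l → PC p v (cadj v K w) (ν - l * ρ + a)
      ((hasseDeriv l f).eval w))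
    (fun l a b hab h1 h2 h3 => (h1 h2 h3).mono (by linarith))
    (fun l _ => by
      by_cases h1 : L < l ∧ p ∣ l
      · obtain ⟨a, ha, h2⟩ := PG.exists_pc (hhi l h1.1 h1.2)
        exact ⟨a, ha, fun _ _ => h2⟩
      · exact ⟨1, one_pos, fun h2 h3 => absurd ⟨h2, h3⟩ h1⟩)
  refine ⟨η / (D + 1), by positivity, fun g' l hg' hDg hl hpl => ?_⟩
  rw [le_div_iff₀ (by positivity)] at hDg
  by_cases h1 : l ≤ D
  · refine lp_mono (hη1 l (mem_range.2 (by omega)) hl hpl).lp ?_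
    have h2 : (l : ℝ) * g' ≤ (D + 1) * g' := by
      refine mul_le_mul_of_nonneg_right ?_ hg'
      have : l ≤ D + 1 := by omega
      exact_mod_cast this
    linarith
  · rw [hasseDeriv_eq_zero_of_lt_natDegree _ _ (by omega), eval_zero]
    exact lp_of_ge RVal.Ge.zero

/-- The displacement of a polynomial of degree `≤ J`: the top term. -/
theorem Mo.dp_top (h : Mo v K w Φ η Z) (hw : TL v K w ρ) (hZ : v.Ge (ρ - g) Z) (hg0 : 0 ≤ g)
    {δ : Polynomial Ω} (hδ : δ ∈ PI K) (hJ : δ.natDegree ≤ J) (hJ0 : J ≠ 0)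
    (hb : v.Ge b (δ.eval w)) :
    v.Ge (b + min η (-(((J : ℝ) - 1) * g))) ((dp Φ δ).eval w - Φ (δ.coeff J) * (-Z) ^ J) := by
  rw [dp, eval_sub, h.S_sub δ hJ]
  have hmem : J ∈ Icc 1 J := mem_Icc.2 ⟨by omega, le_rfl⟩
  rw [← add_sum_erase _ _ hmem, rt_hasse_coeff hJ, eval_C]
  have e2 : ∀ a b c : Ω, a + (b + c) - b = a + c := fun a b c => by ring
  rw [e2]
  refine RVal.Ge.add ?_ (RVal.Ge.sum _ _ fun j hj => ?_)
  · have h0 := min_le_left η (-(((J : ℝ) - 1) * g))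
    exact (h.str _ (TWLM.eval_mem_cadj hδ) _ hb).mono (by linarith)
  · obtain ⟨hjJ, hj⟩ := mem_erase.1 hj
    obtain ⟨hj1, hj2⟩ := mem_Icc.1 hj
    refine (h.term_ge hZ j (TWLM.poly_norm hw hδ j hb)).mono ?_
    have h1 : (j : ℝ) ≤ J - 1 := by
      have : (j : ℝ) + 1 ≤ J := by
        have : j + 1 ≤ J := by omega
        exact_mod_cast this
      linarith
    have h2 : (j : ℝ) * g ≤ (J - 1) * g := mul_le_mul_of_nonneg_right h1 hg0
    have h3 := min_le_right η (-(((J : ℝ) - 1) * g))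
    linarith

/-- **(G3)**: the top visible jet is attained: the coefficients of index `J` of the approximants
converge, up to the radius, to a coefficient in `K`. -/
theorem top_jet (hF : Fam v K w ρ) (hw : TL v K w ρ)
    (hN : Nrm p v K w y ρ s ν e A N B J R) (hJ : J ≠ 0) (htop : Top p v K w ρ ν e A N B J R) :
    ∃ θ₀ ∈ PI K, (∀ i, J < i → θ₀.coeff i = R.coeff i) ∧
      (e ≠ 0 → ∀ l, ¬ p ∣ l → hasseDeriv l θ₀ = 0) ∧
      ∃ c ∈ K, ∃ ε₁ : ℝ, 0 < ε₁ ∧ ∀ ε : ℝ, 0 < ε → ε ≤ ε₁ → ∀ θ ∈ PI K,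
        (∀ i, J < i → θ.coeff i = R.coeff i) → (e ≠ 0 → ∀ l, ¬ p ∣ l → hasseDeriv l θ = 0) →
        v.Ge (s - ε) (y - θ.eval w) →
        LP p v (cadj v K w) (ν - ε) ((fth p e A N B θ).eval w) →
        v.Ge (s - J * ρ - ε) ((θ - θ₀).coeff J - c) := by
  classical
  have hD := hN.toDt
  have hp0 : 0 < p := hp.out.pos
  have hQ0 : 0 < p ^ N := pow_pos hp0 N
  have hpr : (0 : ℝ) < p := by exact_mod_cast hp0
  have hQr : (0 : ℝ) < (p : ℝ) ^ N := by positivity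
  have hQ1 : (1 : ℝ) ≤ (p : ℝ) ^ N := by
    have : 1 ≤ p ^ N := hQ0
    exact_mod_cast this
  have hJr : (1 : ℝ) ≤ J := by exact_mod_cast (Nat.one_le_iff_ne_zero.2 hJ)
  have hL0 : 0 < p ^ N * J := Nat.mul_pos hQ0 (by omega)
  obtain ⟨μ, hμ, hhi⟩ := exists_margin (p := p) htop
  obtain ⟨θ₀, hθ₀, hc₀, hX₀, hy₀, -⟩ := hN.fam 1 one_pos
  have hf₀ := fth_mem hD hN.BC hθ₀
  obtain ⟨Φ, η, Z, g, M, hMo, hP, hZ0, hg0, hgμ, hvZ⟩ := exists_prec hF hD hf₀ 1 J hμ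
  have hη := hMo.pos
  have hZg : v.Ge (ρ - g) Z := fun _ => hvZ.ge
  obtain ⟨ε₁, hε₁, h11, h12, h13⟩ : ∃ ε₁ : ℝ, 0 < ε₁ ∧ ε₁ ≤ 1 ∧ ε₁ ≤ g / 2 ∧ ε₁ ≤ η / 2 :=
    ⟨min 1 (min (g / 2) (η / 2)), lt_min one_pos (lt_min (half_pos hg0) (half_pos hη)),
      min_le_left _ _, (min_le_right _ _).trans (min_le_left _ _),
      (min_le_right _ _).trans (min_le_right _ _)⟩
  -- the size of the displacement
  have hG1 : ∀ ε : ℝ, 0 < ε → ε ≤ ε₁ → ∀ θ ∈ PI K,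
      (∀ i, J < i → θ.coeff i = R.coeff i) → (e ≠ 0 → ∀ l, ¬ p ∣ l → hasseDeriv l θ = 0) →
      v.Ge (s - ε) (y - θ.eval w) → LP p v (cadj v K w) (ν - ε) ((fth p e A N B θ).eval w) →
      ∀ i : ℕ, v.Ge (s - i * ρ - (((J - i : ℕ) : ℝ) * g + ε))
        ((hasseDeriv i (dp Φ (θ - θ₀))).eval w) := by
    intro ε hε hεε θ hθ hc hX hy hl i
    have hΔd : (θ - θ₀).natDegree ≤ J := deg_of_coeff fun i hi => by rw [hc i hi, hc₀ i hi]
    have hΔv : v.Ge (s - 1) ((θ - θ₀).eval w) := by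
      have e1 : (θ - θ₀).eval w = (y - θ₀.eval w) - (y - θ.eval w) := by
        rw [eval_sub]
        ring
      rw [e1]
      exact hy₀.sub (hy.mono (by linarith))
    refine (g1 (L := p ^ N * J) hMo hw hZg hg0.le hD hP hθ hθ₀ hN.BC hΔd hΔv (hN.clsX hX)
      (hN.cls1 hX) hl hε hL0 (fun l hl hpl => ?_) i).mono ?_
    · rw [hasse_fth_eq (deg_of_coeff hc) hl]
      exact hhi g l hg0.le hgμ.le hl hpl
    · have e1 : ((p ^ N * J - p ^ N * i : ℕ) : ℝ) = p ^ N * ((J - i : ℕ) : ℝ) := by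
        rw [← Nat.mul_sub]
        push_cast
        rfl
      rw [e1, add_div, mul_assoc, mul_div_cancel_left₀ _ hQr.ne']
      have h1 : ε / (p : ℝ) ^ N ≤ ε := div_le_self hε.le hQ1
      linarith
  -- the first approximant
  obtain ⟨θ₁, hθ₁, hc₁, hX₁, hy₁, hl₁⟩ := hN.fam ε₁ hε₁
  have hG11 := hG1 ε₁ hε₁ le_rfl θ₁ hθ₁ hc₁ hX₁ hy₁ hl₁
  have hΔ₁ : θ₁ - θ₀ ∈ PI K := sub_mem hθ₁ hθ₀
  have hΔ₁d : (θ₁ - θ₀).natDegree ≤ J := deg_of_coeff fun i hi => by rw [hc₁ i hi, hc₀ i hi]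
  obtain ⟨V, hV⟩ : ∃ V : Ω, V = (-Z) ^ J := ⟨_, rfl⟩
  have hV0 : V ≠ 0 := by
    rw [hV]
    exact pow_ne_zero _ (neg_ne_zero.2 hZ0)
  have hVK : V ∈ K := by
    rw [hV]
    exact pow_mem (neg_mem hMo.Zm) J
  have hvV : v V = J * (ρ - g) := by
    rw [hV, v.map_pow (neg_ne_zero.2 hZ0), v.map_neg _ hZ0, hvZ]
  have hVi : ∀ {c : ℝ} {x : Ω}, v.Ge c x → v.Ge (c - J * (ρ - g)) (V⁻¹ * x) := by
    intro c x hx h0
    have hx0 : x ≠ 0 := right_ne_zero_of_mul h0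
    rw [v.map_mul (inv_ne_zero hV0) hx0, v.map_inv hV0, hvV]
    linarith [hx hx0]
  -- the point near `w`
  obtain ⟨ψ, hψ, hwψ⟩ := hw.lim (g / 2) (half_pos hg0)
  obtain ⟨P, hPdef⟩ : ∃ P : Polynomial Ω, P = C V⁻¹ * dp Φ (θ₁ - θ₀) := ⟨_, rfl⟩
  have hPm : P ∈ PI K := by
    rw [hPdef]
    exact mul_mem (C_mem_PI (inv_mem hVK)) (dp_mem hMo.memC hΔ₁)
  have hPw : P.eval w = V⁻¹ * (dp Φ (θ₁ - θ₀)).eval w := by rw [hPdef, eval_mul, eval_C]
  have hPψ : v.Ge (s - J * ρ) (P.eval w - P.eval ψ) := by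
    refine rt_point_ge (u := ρ - g / 2) (fun i hi => ?_) hwψ
    rw [hPdef, hasse_C_mul, eval_mul, eval_C]
    by_cases hiJ : i ≤ J
    · refine (hVi (hG11 i)).mono ?_
      have h1 : (1 : ℝ) ≤ i := by exact_mod_cast Nat.one_le_iff_ne_zero.2 hi
      rw [Nat.cast_sub hiJ]
      nlinarith
    · rw [hasseDeriv_eq_zero_of_lt_natDegree _ _ ((dp_deg hΔ₁d).trans_lt (by omega)), eval_zero,
        mul_zero]
      exact RVal.Ge.zero
  refine ⟨θ₀, hθ₀, hc₀, hX₀, (θ₁ - θ₀).coeff J - P.eval ψ,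
    sub_mem (hΔ₁ J) (eval_mem hPm hψ), ε₁, hε₁, fun ε hε hεε θ hθ hc hX hy hl => ?_⟩
  obtain ⟨δ, hδ⟩ : ∃ δ, δ = θ - θ₁ := ⟨_, rfl⟩
  have hδm : δ ∈ PI K := by
    rw [hδ]
    exact sub_mem hθ hθ₁
  have hδd : δ.natDegree ≤ J := by
    rw [hδ]
    exact deg_of_coeff fun i hi => by rw [hc i hi, hc₁ i hi]
  have hδv : v.Ge (s - ε₁) (δ.eval w) := by
    have e1 : δ.eval w = (y - θ₁.eval w) - (y - θ.eval w) := by
      rw [hδ, eval_sub]
      ring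
    rw [e1]
    exact hy₁.sub (hy.mono (by linarith))
  have h1 := hMo.dp_top hw hZg hg0.le hδm hδd hJ hδv
  -- the sizes
  have h2 : v.Ge (s - J * ρ) (V⁻¹ * ((dp Φ δ).eval w - Φ (δ.coeff J) * (-Z) ^ J)) := by
    refine (hVi h1).mono ?_
    rcases min_cases η (-(((J : ℝ) - 1) * g)) with h3 | h3
    · rw [h3.1]
      nlinarith
    · rw [h3.1]
      nlinarith
  have h3 := hVi (hG1 ε hε hεε θ hθ hc hX hy hl 0)
  rw [hasseDeriv_zero', Nat.sub_zero] at h3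
  have h4 : v.Ge (s - J * ρ) (Φ (δ.coeff J) - δ.coeff J) := by
    have h5 := TWLM.poly_norm hw hδm J hδv
    rw [rt_hasse_coeff hδd, eval_C] at h5
    exact (hMo.str _ (le_cadj v K w (hδm J)) _ h5).mono (by linarith)
  have e1 : (θ - θ₀).coeff J - ((θ₁ - θ₀).coeff J - P.eval ψ) =
      V⁻¹ * (dp Φ (θ - θ₀)).eval w - (P.eval w - P.eval ψ) -
        V⁻¹ * ((dp Φ δ).eval w - Φ (δ.coeff J) * (-Z) ^ J) - (Φ (δ.coeff J) - δ.coeff J) := by
    have e2 : (dp Φ (θ - θ₀)).eval w = (dp Φ (θ₁ - θ₀)).eval w + (dp Φ δ).eval w := by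
      have e3 : dp Φ (θ - θ₀) = dp Φ (θ₁ - θ₀) + dp Φ δ := by
        simp only [dp, hδ, sm_sub]
        ring
      rw [e3, eval_add]
    have e4 : δ.coeff J = θ.coeff J - θ₁.coeff J := by rw [hδ, coeff_sub]
    rw [e2, hPw, coeff_sub, coeff_sub, ← hV, e4]
    field_simp
    ring
  rw [e1]
  refine ((RVal.Ge.sub ?_ (hPψ.mono (by linarith))).sub (h2.mono (by linarith))).sub
    (h4.mono (by linarith))
  refine h3.mono ?_
  push_cast
  linarith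

/-- One step. The new family is `θ - θ₀ - C c * X ^ J - C (c_θ - c) * (X - C ψ) ^ J`,
`g = θ₀ + C c * X ^ J`, `ψ` near `w`. -/
theorem nrm_step (hF : Fam v K w ρ) (hw : TL v K w ρ)
    (hN : Nrm p v K w y ρ s ν e A N B J R) (hJ : J ≠ 0) (hpJ : e ≠ 0 → p ∣ J)
    (htop : Top p v K w ρ ν e A N B J R) :
    ∃ g ∈ PI K, Nrm p v K w (y - g.eval w) ρ s ν e A N (fth p e A N B g) (J - 1) 0 := by
  obtain ⟨θ₀, hθ₀, h0, h1, c, hc, ε₁, hε₁, h2⟩ := top_jet hF hw hN hJ htop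
  have hX : e ≠ 0 → ∀ l, ¬ p ∣ l → hasseDeriv l (θ₀ + C c * X ^ J) = 0 := by
    intro he l hl
    rw [map_add, h1 he l hl, zero_add, hasse_C_mul, rb_hasse_pow (hpJ he) hl, mul_zero]
  have hg : θ₀ + C c * X ^ J ∈ PI K := add_mem hθ₀ (mul_mem (C_mem_PI hc) (pow_mem X_mem_PI _))
  refine ⟨θ₀ + C c * X ^ J, hg,
    { toDt := hN.toDt
      toAdm := rb_adm
      BC := fth_mem hN.toDt hN.BC hg
      BX := hN.clsX hX
      B1 := hN.cls1 hX
      eB := hN.eB.imp_right fun h3 => by rw [hN.cls hX (Nat.Prime.not_dvd_one hp.out), h3]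
      fam := fun ε hε => ?_ }⟩
  have hJ0 : (0 : ℝ) < J := by exact_mod_cast Nat.pos_of_ne_zero hJ
  have hp0 : (0 : ℝ) < p := by exact_mod_cast hp.out.pos
  have hQ0 : (0 : ℝ) < (p : ℝ) ^ N := by positivity
  have hQ1 : (1 : ℝ) ≤ (p : ℝ) ^ N := one_le_pow₀ (by exact_mod_cast hp.out.one_lt.le)
  obtain ⟨η, hη, hη1, hη2, hη3⟩ : ∃ η : ℝ, 0 < η ∧ η ≤ ε₁ ∧ 2 * η ≤ ε ∧ p ^ N * (2 * η) ≤ ε := by
    refine ⟨min ε₁ (ε / (2 * p ^ N)), lt_min hε₁ (by positivity), min_le_left _ _, ?_, ?_⟩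
    · have h3 : min ε₁ (ε / (2 * p ^ N)) ≤ ε / (2 * p ^ N) := min_le_right _ _
      rw [le_div_iff₀ (by positivity)] at h3
      have h4 : 0 < min ε₁ (ε / (2 * p ^ N)) := lt_min hε₁ (by positivity)
      nlinarith
    · have h3 : min ε₁ (ε / (2 * p ^ N)) ≤ ε / (2 * p ^ N) := min_le_right _ _
      rw [le_div_iff₀ (by positivity)] at h3
      linarith
  obtain ⟨θ, hθ, h3, h4, h5, h6⟩ := hN.fam η hη
  have h7 := h2 η hη hη1 θ hθ h3 h4 h5 h6
  obtain ⟨ψ, hψ, h8⟩ := hw.lim (η / J) (by positivity)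
  set d : Ω := (θ - θ₀).coeff J - c with hd
  have hdK : d ∈ K := sub_mem (by rw [coeff_sub]; exact sub_mem (hθ J) (hθ₀ J)) hc
  have hP : C d * (X - C ψ) ^ J ∈ PI K :=
    mul_mem (C_mem_PI hdK) (pow_mem (sub_mem X_mem_PI (C_mem_PI hψ)) _)
  have hPv : v.Ge (s - 2 * η) ((C d * (X - C ψ) ^ J).eval w) := by
    rw [eval_mul, eval_C, eval_pow, eval_sub, eval_X, eval_C]
    refine (h7.mul (ge_pow h8 J)).mono (le_of_eq ?_)
    field_simp
    ring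
  have hmon : ((X - C ψ) ^ J).Monic := (monic_X_sub_C ψ).pow J
  have hdeg : ((X - C ψ) ^ J).natDegree = J := by
    rw [(monic_X_sub_C ψ).natDegree_pow, natDegree_X_sub_C, mul_one]
  refine ⟨θ - (θ₀ + C c * X ^ J) - C d * (X - C ψ) ^ J, sub_mem (sub_mem hθ hg) hP, ?_, ?_, ?_, ?_⟩
  · intro i hi
    rw [coeff_zero, coeff_sub, coeff_sub, coeff_add, coeff_C_mul, coeff_C_mul, coeff_X_pow]
    by_cases hiJ : i = J
    · subst hiJ
      have h9 : ((X - C ψ) ^ i).coeff i = 1 := by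
        have h10 := hmon.coeff_natDegree
        rwa [hdeg] at h10
      rw [if_pos rfl, h9, hd, coeff_sub]
      ring
    · have h9 : ((X - C ψ) ^ J).coeff i = 0 :=
        coeff_eq_zero_of_natDegree_lt (by rw [hdeg]; omega)
      rw [if_neg hiJ, h9, h3 i (by omega), h0 i (by omega)]
      ring
  · intro he l hl
    rw [map_sub, map_sub, h4 he l hl, hX he l hl, hasse_C_mul, rb_hasse_pow (hpJ he) hl, mul_zero,
      sub_zero, sub_zero]
  · have e1 : y - (θ₀ + C c * X ^ J).eval w - (θ - (θ₀ + C c * X ^ J) - C d * (X - C ψ) ^ J).eval w =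
        (y - θ.eval w) + (C d * (X - C ψ) ^ J).eval w := by
      rw [eval_sub (θ - (θ₀ + C c * X ^ J)), eval_sub θ]
      ring
    rw [e1]
    exact (h5.mono (by linarith)).add (hPv.mono (by linarith))
  · rw [rb_fth]
    have e2 : θ - (θ₀ + C c * X ^ J) - C d * (X - C ψ) ^ J + (θ₀ + C c * X ^ J) =
        θ - C d * (X - C ψ) ^ J := by ring
    rw [e2]
    refine lp_mono (hN.lev (sub_mem hθ hP) (η := 2 * η) (by positivity) ?_) (by linarith)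
    have e3 : y - (θ - C d * (X - C ψ) ^ J).eval w =
        (y - θ.eval w) + (C d * (X - C ψ) ^ J).eval w := by
      rw [eval_sub]
      ring
    rw [e3]
    exact (h5.mono (by linarith)).add hPv

/-- **RAT for a family**. -/
theorem rat (hF : Fam v K w ρ) (hw : TL v K w ρ) (hN : Nrm p v K w y ρ s ν e A N B J 0) :
    ∃ g ∈ PI K, Nrm p v K w (y - g.eval w) ρ s ν e A N (fth p e A N B g) 0 0 := by
  induction J generalizing y B with
  | zero =>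
    refine ⟨0, zero_mem _, ?_⟩
    have e1 : fth p e A N B 0 = B := by
      rw [fth, mul_zero, zero_add, sum_eq_zero, zero_add]
      intro i _
      rw [zero_pow (pow_ne_zero _ hp.out.ne_zero), mul_zero]
    rwa [eval_zero, sub_zero, e1]
  | succ J ih =>
    by_cases he : e ≠ 0 ∧ ¬ p ∣ J + 1
    · exact ih (hN.low_e he.1 he.2)
    · obtain ⟨R', hR', htop⟩ := exists_R hF hw (Nat.succ_le_succ (Nat.zero_le J)) hN
      obtain ⟨g₁, hg₁, h1⟩ := nrm_step hF hw hR' (Nat.succ_ne_zero J)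
        (fun h2 => by_contra fun h3 => he ⟨h2, h3⟩) htop
      obtain ⟨g₂, hg₂, h2⟩ := ih h1
      refine ⟨g₂ + g₁, add_mem hg₂ hg₁, ?_⟩
      rw [rb_fth] at h2
      have e1 : y - (g₂ + g₁).eval w = y - g₁.eval w - g₂.eval w := by
        rw [eval_add]
        ring
      rwa [e1]

end Pool.Agent.TWRT
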