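import Pool.Agent.Lib.TWRT.RT3

/-!
# TANK W, contact (III.1), RAT for a family: the normal form and the conclusion

* `toC`: the coefficients of a hit are in `C`;
* `exists_nrm`: the normal form;
* `rat_of_hit`: **if the floor `y` over `F = cadj v C w` is hit and `w` is moved visibly over `C`,
  then `y - φ`, `φ ∈ F`, is of transcendental type over `C`** (with the normal form).
-/

set_option autoImplicit false
set_option linter.unusedSectionVars false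

open Polynomial Finset

namespace Pool.Agent.TWRT

open Pool.Agent.H15JM (RVal)
open Pool.Agent.TWM
open Pool.Agent.TWS (IsoE)
open Pool.Agent.TWII (PG LP)
open Pool.Agent.TWN1

universe u

variable {k Ω : Type u} [Field k] [Field Ω] [Algebra k Ω] {v : RVal Ω}
  {C K : IntermediateField k Ω} {w y a e b : Ω} {ρ ν s : ℝ}
  {p : ℕ} [hp : Fact p.Prime] [CharP Ω p] [IsAlgClosed Ω] {A : ℕ → Ω} {N : ℕ}

/-- **(2.1)**: the coefficients are in `C`. -/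
theorem toC (hΩ : CompleteV v) (hF : Fam v C w ρ) (hw : TL v C w ρ)
    (hy : TL v (cadj v C w) y s) (hFK : cadj v C w ≤ K) (hyK : y ∈ K)
    (hD : Dat p v (cadj v C w) K y s ν a N e A b) :
    ∃ c ∈ cadj v C w, ∃ e' ∈ C, ∃ (A' : ℕ → Ω) (b' : Ω), (∀ i ∈ Icc 1 N, A' i ∈ C) ∧
      (e' ≠ 0 → v e' = ν - s) ∧ Dat p v (cadj v C w) K (y - c) s ν a N e' A' b' := by
  have hp0 : (0 : ℝ) < p := by exact_mod_cast hp.out.pos
  have hQ : (0 : ℝ) < (p : ℝ) ^ N := by positivity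
  have hNN : N ∈ Icc 1 N := mem_Icc.2 ⟨hD.N1, le_rfl⟩
  -- the first shift
  obtain ⟨c₁, hc₁, hyc₁⟩ := hy.lim (1 / (2 * p ^ N)) (by positivity)
  have hy₁ : TL v (cadj v C w) (y - c₁) s := hy.sub_mem hc₁
  have hD₁ := hD.shift hc₁
  have hy₁K : y - c₁ ∈ K := sub_mem hyK (hFK hc₁)
  obtain ⟨B₁, hB₁, hb₁⟩ := hw.dense hD₁.bf (ν + 1)
  -- polynomials for the coefficients
  have hP : ∀ i : ℕ, ∃ P ∈ PI C, i ∈ Icc 1 N → v.Ge (ν - p ^ i * s + 1) (A i - P.eval w) := by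
    intro i
    by_cases hi : i ∈ Icc 1 N
    · obtain ⟨P, hP, h1⟩ := hw.dense (hD.Af i hi) (ν - p ^ i * s + 1)
      exact ⟨P, hP, fun _ => h1⟩
    · exact ⟨0, zero_mem _, fun h => absurd h hi⟩
  choose P hPm hPA using hP
  have hμ1 : (p : ℝ) ^ N * (1 / (2 * p ^ N)) < 1 := by
    have e1 : (p : ℝ) ^ N * (1 / (2 * p ^ N)) = 1 / 2 := by field_simp
    rw [e1]
    norm_num
  have hD₂ : Dat p v (cadj v C w) K (y - c₁) s ν a N e (fun i => (P i).eval w) (B₁.eval w) := by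
    refine (hD₁.cmp hFK hy₁K (e' := e) (A' := fun i => (P i).eval w) (μ := 1)
      (δ := 1 / (2 * p ^ N)) hD.ef (fun i _ => TWLM.eval_mem_cadj (hPm i)) (by positivity) hyc₁ hμ1
      (by rw [sub_self]; exact RVal.Ge.zero) fun i hi => PC.of_ge (hPA i hi)).base
      (TWLM.eval_mem_cadj hB₁) (hb₁.mono (by linarith)) (Gt.of_ge hb₁ (by linarith))
  -- Lemma M
  have hM : ∀ i ∈ Icc 1 N, Gt v (ν - p ^ i * s - ρ) ((derivative (P i)).eval w) :=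
    TWLM.lemM_poly p hΩ hw hy₁ hD.ef hD.eg hB₁ (fun i _ => hPm i)
      (fun i hi ε hε => hD₂.Al i hi ε hε) fun ε hε => by
        obtain ⟨δ, hδ, h1⟩ := hD₂.st ε hε
        exact ⟨δ, hδ, fun θ hθ h2 => h1 _ (TWLM.eval_mem_cadj hθ) h2⟩
  -- the coefficients in `C`
  have hC : ∀ i ∈ Icc 1 N, ∃ μ : ℝ, 0 < μ ∧ ∃ c ∈ C,
      PC p v (cadj v C w) (ν - p ^ i * s + μ) (A i - c) := by
    intro i hi
    obtain ⟨c, hc, h2⟩ := hF.top (p := p) hw (hPm i) (hD₂.Al i hi) (by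
      rw [hasseDeriv_one']
      exact hM i hi)
    have h3 : PG p v (cadj v C w) (ν - p ^ i * s) (A i - c) := by
      have e1 : A i - c = (A i - (P i).eval w) + ((P i).eval w - c) := by ring
      rw [e1]
      exact PG.add' (PG.of_gt (Gt.of_ge (hPA i hi) (by linarith))) h2
    obtain ⟨μ, hμ, h4⟩ := PG.exists_pc h3
    exact ⟨μ, hμ, c, hc, h4⟩
  -- the linear coefficient
  obtain ⟨e', he', he'v, hee'⟩ := exists_lead hw.imm hD.ef hD.eg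
  obtain ⟨μ₁, hμ₁, h1⟩ := TWLM.exists_ge_of_gt hee'
  obtain ⟨μ₂, hμ₂, h2⟩ := exists_unif (Icc 1 N)
    (P := fun i μ => ∃ c ∈ C, PC p v (cadj v C w) (ν - p ^ i * s + μ) (A i - c))
    (fun i a b hab ⟨c, hc, h3⟩ => ⟨c, hc, h3.mono (by linarith)⟩) hC
  choose! A' hA'C hA' using h2
  set μ := min μ₁ μ₂ with hμ
  have hμ0 : 0 < μ := lt_min hμ₁ hμ₂
  -- the second shift
  obtain ⟨c₂, hc₂, hyc₂⟩ := hy.lim (μ / (2 * p ^ N)) (by positivity)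
  have hμ2 : (p : ℝ) ^ N * (μ / (2 * p ^ N)) < μ := by
    have e1 : (p : ℝ) ^ N * (μ / (2 * p ^ N)) = μ / 2 := by field_simp
    rw [e1]
    linarith
  refine ⟨c₂, hc₂, e', he', A', _, hA'C, he'v, (hD.shift hc₂).cmp hFK (sub_mem hyK (hFK hc₂))
    (μ := μ) (hw.imm.le he') (fun i hi => hw.imm.le (hA'C i hi)) (by positivity) hyc₂ hμ2
    (h1.mono (by linarith [min_le_left μ₁ μ₂])) fun i hi => (hA' i hi).mono
      (by linarith [min_le_right μ₁ μ₂])⟩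

/-- **The normal form of a hit**: start with `R = 0`. -/
theorem exists_nrm (hΩ : CompleteV v) (hF : Fam v C w ρ) (hw : TL v C w ρ)
    (hy : TL v (cadj v C w) y s)
    {e₀ a₀ : Ω} {A₀ : ℕ → Ω} (hN : 1 ≤ N) (he₀ : e₀ ∈ cadj v C w)
    (hev : v.Ge (ν - s) e₀) (ha₀ : a₀ ∈ cadj v C w)
    (hA₀ : ∀ i ∈ Icc 1 N, A₀ i ∈ cadj v C w)
    (hlo : ∀ i ∈ Icc 1 N, LP p v (cadj v C w) (ν - p ^ i * s) (A₀ i))
    (htop : ¬ PG p v (cadj v C w) (ν - p ^ N * s) (A₀ N))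
    (hst : ∀ ε : ℝ, 0 < ε → ∃ δ : ℝ, 0 < δ ∧ ∀ θ ∈ cadj v C w, v.Ge (s - δ) (y - θ) →
      ∃ g ∈ cadj v C w, v.Ge (ν - ε)
        (e₀ * θ + ∑ i ∈ Icc 1 N, A₀ i * θ ^ p ^ i + a₀ - g ^ p))
    (ha : PG p v (cadj v (cadj v C w) y) ν
      (a - (e₀ * y + ∑ i ∈ Icc 1 N, A₀ i * y ^ p ^ i + a₀))) :
    ∃ (c e e₂ : Ω) (A : ℕ → Ω) (B : Polynomial Ω) (J : ℕ), c ∈ cadj v C w ∧
      Nrm p v C w (y - c) ρ s ν e A N B J 0 ∧
      (e ≠ 0 → v e = ν - s) ∧ e₂ ∈ C ∧ hasseDeriv 1 B = Polynomial.C e₂ ∧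
      (e₂ ≠ 0 → v e₂ = ν - ρ) ∧
      PG p v (cadj v (cadj v C w) y) ν
        (a - (e * (y - c) + ∑ i ∈ Icc 1 N, A i * (y - c) ^ p ^ i + B.eval w)) := by
  have hyK : y ∈ cadj v (cadj v C w) y := self_mem_cadj _ _ _
  have hFK : cadj v C w ≤ cadj v (cadj v C w) y := le_cadj _ _ _
  have hD : Dat p v (cadj v C w) (cadj v (cadj v C w) y) y s ν a N e₀ A₀ a₀ :=
    ⟨hN, he₀, hev, hA₀, hlo, htop, ha₀, hst, ha⟩
  obtain ⟨c₁, hc₁, e, heC, A, b, hAC, hev', hD₁⟩ := toC hΩ hF hw hy hFK hyK hD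
  have hy₁ := hy.sub_mem hc₁
  obtain ⟨c₂, hc₂, e₂, he₂, B, hB, hBd, hBX, hee, he₂v, hD₂⟩ := hD₁.toX hw hy₁ heC hev' hAC
  have hy₂ := hy₁.sub_mem hc₂
  have e1 : y - (c₁ + c₂) = y - c₁ - c₂ := by ring
  refine ⟨c₁ + c₂, e, e₂, A, B, B.natDegree / p ^ N, add_mem hc₁ hc₂, ?_, hev', he₂,
    by rw [hasseDeriv_one', hBd], he₂v, ?_⟩
  · rw [e1]
    exact hD₂.nrm hw hy₂ hB heC hev' hAC hBd hee he₂v hBX
  · rw [e1]
    exact hD₂.rel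

/-- **RAT for a family**, from a hit. With `y' = y - φ`, `φ ∈ F = cadj v C w`: `y'` is of
transcendental type over `C`, and `a ≡ e y' + ∑ A i y' ^ p ^ i + B(w)` with coefficients in `C`. -/
theorem rat_of_hit (hΩ : CompleteV v) (hF : Fam v C w ρ) (hw : TL v C w ρ)
    (hy : TL v (cadj v C w) y s)
    {e₀ a₀ : Ω} {A₀ : ℕ → Ω} (hN : 1 ≤ N) (he₀ : e₀ ∈ cadj v C w)
    (hev : v.Ge (ν - s) e₀) (ha₀ : a₀ ∈ cadj v C w)
    (hA₀ : ∀ i ∈ Icc 1 N, A₀ i ∈ cadj v C w)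
    (hlo : ∀ i ∈ Icc 1 N, LP p v (cadj v C w) (ν - p ^ i * s) (A₀ i))
    (htop : ¬ PG p v (cadj v C w) (ν - p ^ N * s) (A₀ N))
    (hst : ∀ ε : ℝ, 0 < ε → ∃ δ : ℝ, 0 < δ ∧ ∀ θ ∈ cadj v C w, v.Ge (s - δ) (y - θ) →
      ∃ g ∈ cadj v C w, v.Ge (ν - ε)
        (e₀ * θ + ∑ i ∈ Icc 1 N, A₀ i * θ ^ p ^ i + a₀ - g ^ p))
    (ha : PG p v (cadj v (cadj v C w) y) ν
      (a - (e₀ * y + ∑ i ∈ Icc 1 N, A₀ i * y ^ p ^ i + a₀))) :
    ∃ (φ e e₂ : Ω) (A : ℕ → Ω) (B : Polynomial Ω), φ ∈ cadj v C w ∧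
      TL v C (y - φ) s ∧ Nrm p v C w (y - φ) ρ s ν e A N B 0 0 ∧
      (e ≠ 0 → v e = ν - s) ∧ e₂ ∈ C ∧ hasseDeriv 1 B = Polynomial.C e₂ ∧
      (e₂ ≠ 0 → v e₂ = ν - ρ) ∧ (e = 0 ∨ e₂ = 0) ∧
      PG p v (cadj v (cadj v C w) y) ν
        (a - (e * (y - φ) + ∑ i ∈ Icc 1 N, A i * (y - φ) ^ p ^ i + B.eval w)) := by
  obtain ⟨c, e, e₂, A, B, J, hc, hN1, hev', he₂, hB1, he₂v, h1⟩ :=
    exists_nrm hΩ hF hw hy hN he₀ hev ha₀ hA₀ hlo htop hst ha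
  obtain ⟨g, hg, h2⟩ := rat hF hw hN1
  have hgF : g.eval w ∈ cadj v C w := TWLM.eval_mem_cadj hg
  have e1 : y - (c + g.eval w) = y - c - g.eval w := by ring
  have hB' : hasseDeriv 1 (fth p e A N B g) = hasseDeriv 1 B := by
    by_cases he : e = 0
    · exact hN1.cls (θ := g) (fun h3 => absurd he h3) (Nat.Prime.not_dvd_one hp.out)
    · exact (h2.eB.resolve_left he).trans (hN1.eB.resolve_left he).symm
  refine ⟨c + g.eval w, e, e₂, A, fth p e A N B g, add_mem hc hgF, ?_, ?_, hev', he₂, ?_, he₂v,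
    ?_, ?_⟩
  · rw [e1]
    exact h2.tl ((hy.sub_mem hc).sub_mem hgF)
  · rw [e1]
    exact h2
  · rw [hB', hB1]
  · refine h2.eB.imp_right fun h3 => ?_
    rw [hB', hB1] at h3
    exact Polynomial.C_eq_zero.1 h3
  · rw [e1]
    have e2 : e * (y - c) + ∑ i ∈ Icc 1 N, A i * (y - c) ^ p ^ i + B.eval w =
        e * (y - c - g.eval w) + ∑ i ∈ Icc 1 N, A i * (y - c - g.eval w) ^ p ^ i +
          (fth p e A N B g).eval w := by
      rw [fth_eval]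
      have h3 := ff_add (p := p) e A N (B.eval w) (y - c - g.eval w) (g.eval w)
      rw [sub_add_cancel] at h3
      exact h3
    rwa [← e2]

end Pool.Agent.TWRT
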