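import Pool.Agent.Lib.TWRT.RT4
import Pool.Agent.Lib.TWN1.GabE2
import Pool.Agent.Lib.TWCT.ConS

/-!
# TANK W, contact (III.1), RAT for a family: the additive form over the pair

* `add_form`: the base `B(w)` is additive modulo null;
* `nrm_af`, `af_of_soc`: the record `AF` over the pair `w`, `y - φ`;
* `fam_of_movV`: `MovV` gives the family;
* `af_of_hit`: **if `w` is moved visibly over `C` and `y` is hit over `cadj v C w`, then the pair
  `w`, `y - φ`, `φ ∈ cadj v C w`, is abelian over `C`**, with an additive form whose top in `y` is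
  not null.
-/

set_option autoImplicit false
set_option linter.unusedSectionVars false

open Polynomial Finset

namespace Pool.Agent.TWRT

open Pool.Agent.H15JM (RVal)
open Pool.Agent.D2P (clI mem_clI)
open Pool.Agent.TWM
open Pool.Agent.TWS (IsoE)
open Pool.Agent.TWII (PG LP)
open Pool.Agent.TWN1
open Pool.Agent.TWCT (SMo MovV Hit)

universe u

variable {k Ω : Type u} [Field k] [Field Ω] [Algebra k Ω] {v : RVal Ω}
  {C : IntermediateField k Ω} {w y e b : Ω} {ρ ν s : ℝ}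
  {p : ℕ} [hp : Fact p.Prime] [CharP Ω p] [IsAlgClosed Ω] {A : ℕ → Ω} {N : ℕ} {B : Polynomial Ω}

/-- **The additive form** of a polynomial of class X all whose `p`-jets have level `ν - l ρ`. -/
theorem add_form (hF : Fam v C w ρ) (hw : TL v C w ρ)
    (hB : B ∈ PI C) (hX : ∀ l, 2 ≤ l → ¬ p ∣ l → hasseDeriv l B = 0) {e₂ : Ω}
    (he : hasseDeriv 1 B = Polynomial.C e₂)
    (hlev : ∀ l : ℕ, l ≠ 0 → p ∣ l → LP p v (cadj v C w) (ν - l * ρ) ((hasseDeriv l B).eval w)) :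
    ∃ (b₀ : Ω) (x : ℕ → Ω) (S : ℕ), b₀ ∈ C ∧ x 0 = e₂ ∧ (∀ j, x j ∈ C) ∧
      (∀ j : ℕ, j ≠ 0 → LP p v C (ν - p ^ j * ρ) (x j)) ∧
      PG p v (cadj v C w) ν (B.eval w - (b₀ + col p x w S)) := by
  classical
  have hp1 := hp.out.one_lt
  have hpp : ∀ j : ℕ, j ≠ 0 → p ∣ p ^ j := fun j hj => dvd_pow_self p hj
  have hpj0 : ∀ j : ℕ, p ^ j ≠ 0 := fun j => (Nat.pow_pos hp.out.pos).ne'
  -- the jets of index `p ^ j` are of class X with derivative `0`
  have hX' : ∀ j : ℕ, j ≠ 0 → ∀ l : ℕ, l ≠ 0 → ¬ p ∣ l →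
      hasseDeriv l (hasseDeriv (p ^ j) B) = 0 := by
    intro j hj l hl hpl
    have e : hasseDeriv l (hasseDeriv (p ^ j) B) = (l + p ^ j).choose l • hasseDeriv (l + p ^ j) B := by
      have := LinearMap.congr_fun (hasseDeriv_comp (R := Ω) l (p ^ j)) B
      simpa using this
    rw [e, hX (l + p ^ j) (by have := Nat.pos_of_ne_zero (hpj0 j); omega)
      (fun h1 => hpl ((Nat.dvd_add_left (hpp j hj)).1 h1)), smul_zero]
  have hcj : ∀ j : ℕ, ∃ c : Ω, c ∈ C ∧ (j ≠ 0 → PG p v (cadj v C w) (ν - p ^ j * ρ)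
      ((hasseDeriv (p ^ j) B).eval w - c)) := by
    intro j
    rcases eq_or_ne j 0 with hj | hj
    · exact ⟨0, zero_mem _, fun h1 => absurd hj h1⟩
    · have h1 := hlev (p ^ j) (hpj0 j) (hpp j hj)
      push_cast at h1
      obtain ⟨c, hc, h2⟩ := hF.top (p := p) hw (hasse_mem_PI hB (p ^ j)) h1 (by
        rw [hX' j hj 1 one_ne_zero (Nat.Prime.not_dvd_one hp.out), eval_zero]
        exact Gt.zero)
      exact ⟨c, hc, fun _ => h2⟩
  choose c hc hcn using hcj
  have he₂ : e₂ ∈ C := by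
    have h1 := hasse_mem_PI hB 1 0
    rwa [he, coeff_C_zero] at h1
  set x : ℕ → Ω := fun j => if j = 0 then e₂ else c j with hx
  have hx0 : x 0 = e₂ := by simp [hx]
  have hxj : ∀ j : ℕ, j ≠ 0 → x j = c j := fun j hj => by simp [hx, hj]
  have hxC : ∀ j, x j ∈ C := by
    intro j
    rcases eq_or_ne j 0 with rfl | hj
    · rw [hx0]
      exact he₂
    · rw [hxj j hj]
      exact hc j
  set S := B.natDegree with hS
  set A : Polynomial Ω := ∑ j ∈ range (S + 1), Polynomial.C (x j) * X ^ p ^ j with hA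
  have hAC : A ∈ PI C := sum_mem fun j _ => mul_mem (C_mem_PI (hxC j)) (pow_mem X_mem_PI _)
  have hB'C : B - A ∈ PI C := sub_mem hB hAC
  have hinj : ∀ i j : ℕ, p ^ i = p ^ j → i = j := fun i j hij => Nat.pow_right_injective hp1 hij
  have hlt : ∀ j : ℕ, j < p ^ j := fun j => Nat.lt_pow_self hp1
  -- the jets of the rest
  have hjA : ∀ l : ℕ, l ≠ 0 → hasseDeriv l (B - A) = hasseDeriv l B -
      ∑ j ∈ range (S + 1), if l = p ^ j then Polynomial.C (x j) else 0 := by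
    intro l hl
    rw [map_sub, hA, hasse_add_poly x S hl]
  have hz : ∀ l : ℕ, 0 < l → ¬ p ∣ l → hasseDeriv l (B - A) = 0 := by
    intro l hl hpl
    rw [hjA l hl.ne']
    rcases eq_or_ne l 1 with rfl | hl1
    · rw [sum_eq_single_of_mem 0 (mem_range.2 (by omega)) (fun j _ hj => if_neg ?_),
        pow_zero, if_pos rfl, hx0, he, sub_self]
      intro h1
      exact hj (hinj j 0 (by rw [pow_zero]; exact h1.symm))
    · rw [hX l (by omega) hpl, zero_sub, neg_eq_zero]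
      refine sum_eq_zero fun j _ => if_neg fun h1 => ?_
      rcases eq_or_ne j 0 with rfl | hj
      · exact hl1 (by rw [h1, pow_zero])
      · exact hpl (h1 ▸ hpp j hj)
  have hn : ∀ l : ℕ, 0 < l → p ∣ l →
      PG p v (cadj v C w) (ν - l * ρ) ((hasseDeriv l (B - A)).eval w) := by
    intro l hl hpl
    rw [hjA l hl.ne']
    obtain ⟨a, m, hm, e⟩ := Nat.exists_eq_pow_mul_and_not_dvd hl.ne' p hp.out.ne_one
    have ha : a ≠ 0 := by
      rintro rfl
      rw [pow_zero, one_mul] at e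
      exact hm (e ▸ hpl)
    rcases eq_or_ne m 1 with rfl | hm1
    · rw [mul_one] at e
      by_cases haS : a ≤ S
      · have h1 : ∑ j ∈ range (S + 1), (if l = p ^ j then Polynomial.C (x j) else 0) =
            Polynomial.C (c a) := by
          rw [sum_eq_single_of_mem a (mem_range.2 (by omega)) (fun j _ hj => if_neg ?_),
            if_pos e, hxj a ha]
          intro h2
          exact hj (hinj j a (by rw [← h2, ← e]))
        rw [h1, eval_sub, eval_C]
        have h2 := hcn a ha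
        rw [e]
        push_cast
        exact h2
      · have h1 : ∑ j ∈ range (S + 1), (if l = p ^ j then Polynomial.C (x j) else 0) = 0 := by
          refine sum_eq_zero fun j hj => if_neg fun h2 => ?_
          have h3 := hinj a j (by rw [← e, ← h2])
          have h4 := mem_range.1 hj
          omega
        have h2 : S < l := by
          have := hlt a
          omega
        rw [h1, sub_zero, hasseDeriv_eq_zero_of_lt_natDegree B l h2, eval_zero]
        exact PC.pg (c := ν - l * ρ + 1) (.of_ge RVal.Ge.zero) (by linarith)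
    · have h1 : ∑ j ∈ range (S + 1), (if l = p ^ j then Polynomial.C (x j) else 0) = 0 := by
        refine sum_eq_zero fun j _ => if_neg fun h2 => ?_
        rw [e] at h2
        rcases lt_or_ge a j with h3 | h3
        · refine hm ?_
          have h4 : p ^ a * m = p ^ a * p ^ (j - a) := by
            rw [h2, ← pow_add, Nat.add_sub_cancel' h3.le]
          rw [Nat.eq_of_mul_eq_mul_left (Nat.pow_pos hp.out.pos) h4]
          exact hpp _ (by omega)
        · have hm0 : m ≠ 0 := by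
            rintro rfl
            exact hm (dvd_zero p)
          have h4 : p ^ a * m = p ^ j := h2
          have h5 : p ^ j ≤ p ^ a := Nat.pow_le_pow_right hp.out.pos h3
          have h6 : p ^ a * 2 ≤ p ^ a * m := Nat.mul_le_mul_left _ (by omega)
          have h7 := Nat.pos_of_ne_zero (hpj0 a)
          omega
      rw [h1, sub_zero]
      have hm0 : m ≠ 0 := by
        rintro rfl
        exact hm (dvd_zero p)
      -- `l = i + p ^ a`
      have hpa : p ^ a < l := by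
        have h6 : p ^ a * 2 ≤ p ^ a * m := Nat.mul_le_mul_left _ (by omega)
        have h7 := Nat.pos_of_ne_zero (hpj0 a)
        omega
      obtain ⟨i, hi⟩ : ∃ i, l = i + p ^ a := ⟨l - p ^ a, by omega⟩
      have hi0 : i ≠ 0 := by omega
      have hpi : p ∣ i := (Nat.dvd_add_left (hpp a ha)).1 (hi ▸ hpl)
      have h2 := hlev (p ^ a) (hpj0 a) (hpp a ha)
      have h3 := hF.h0 (p := p) hw (hasse_mem_PI hB (p ^ a)) h2 hi0 hpi
      rw [hasse_eval, ← hi] at h3
      have h4 : ¬ p ∣ l.choose i := by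
        have h5 : l.choose i = (p ^ a * m).choose (p ^ a * 1) := by
          rw [← e, mul_one, hi]
          exact Nat.choose_symm_add
        rw [h5, dvd_choose_pow p a m 1, Nat.choose_one_right]
        exact hm
      have h5 := pg_of_natCast_mul h4 h3
      refine h5.mono ?_
      rw [hi]
      push_cast
      linarith
  -- the rest is a constant
  obtain ⟨μ, δ₀, hμ, hδ₀, hdeep⟩ := exists_deep (l₀ := 0) hw hB'C (fun l hl hpl => hn l hl hpl)
  have hL1 : (0 : ℝ) < 4 * ((B - A).natDegree + 1) := by positivity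
  set δ := min δ₀ (μ / (4 * ((B - A).natDegree + 1))) with hδdef
  have hδ : 0 < δ := lt_min hδ₀ (div_pos hμ hL1)
  have hδ1 : δ ≤ δ₀ := min_le_left _ _
  have hLδ : ((B - A).natDegree : ℝ) * δ ≤ μ / 2 := by
    have h1 : δ ≤ μ / (4 * ((B - A).natDegree + 1)) := min_le_right _ _
    rw [le_div_iff₀ hL1] at h1
    nlinarith
  obtain ⟨ψ, hψ, hwψ⟩ := hw.lim δ hδ
  have h1 := jet_diff (p := p) (l₀ := 0) (f := B - A) (ν := ν) (dvd_zero p) hz hψ
    (fun l h0 h1 => hdeep ψ hψ (hwψ.mono (by linarith)) l h0 h1) hδ.le hLδ (le_cadj v C w)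
    (self_mem_cadj v C w) hwψ
  rw [hasseDeriv_zero'] at h1
  refine ⟨(B - A).eval ψ, x, S, eval_mem hB'C hψ, hx0, hxC, fun j hj => ?_, ?_⟩
  · rw [hxj j hj]
    have h2 := hlev (p ^ j) (hpj0 j) (hpp j hj)
    push_cast at h2
    have h3 := h2.sub (TWII.LP.of_pg (hcn j hj))
    rw [sub_sub_cancel] at h3
    exact TWII.LP.down hw (hc j) h3
  · have e : B.eval w - ((B - A).eval ψ + col p x w S) = (B - A).eval w - (B - A).eval ψ := by
      rw [eval_sub B A w, hA, col, eval_finsetSum]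
      simp only [eval_mul, eval_C, eval_pow, eval_X]
      ring
    rw [e]
    refine h1.pg ?_
    rw [Nat.cast_zero]
    linarith

/-- **The additive form over the pair `w`, `y`**, from the normal form. -/
theorem nrm_af (hF : Fam v C w ρ) (hw : TL v C w ρ)
    (hy : TL v (cadj v C w) y s)
    (hN : Nrm p v C w y ρ s ν e A N B 0 0) {e₂ : Ω}
    (he₂ : hasseDeriv 1 B = Polynomial.C e₂)
    (hb : PG p v (cadj v (cadj v C w) y) ν
      (b - (e * y + ∑ i ∈ Icc 1 N, A i * y ^ p ^ i + B.eval w))) :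
    ∃ (b₀ : Ω) (x : ℕ → Ω) (S : ℕ) (y' : ℕ → Ω),
      AF p v C (cadj v (cadj v C w) y) ν b b₀ w ρ x S y s y' N ∧
      x 0 = e₂ ∧ y' 0 = e ∧ (∀ i ∈ Icc 1 N, y' i = A i) ∧
      ¬ PG p v C (ν - p ^ N * s) (y' N) := by
  classical
  have hlev : ∀ l : ℕ, l ≠ 0 → p ∣ l →
      LP p v (cadj v C w) (ν - l * ρ) ((hasseDeriv l B).eval w) := by
    intro l hl hpl
    have h1 := hN.lev_high hw (l := l) (by rw [mul_zero]; exact Nat.pos_of_ne_zero hl)
    have e1 : hasseDeriv l (fth p e A N B 0) = hasseDeriv l B := by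
      rw [fth]
      have h2 : ∑ i ∈ Icc 1 N, Polynomial.C (A i) * (0 : Polynomial Ω) ^ p ^ i = 0 :=
        sum_eq_zero fun i _ => by rw [zero_pow (Nat.pow_pos hp.out.pos).ne', mul_zero]
      rw [h2, mul_zero, zero_add, zero_add]
    rwa [e1] at h1
  obtain ⟨b₀, x, S, hb₀, hx0, hxC, hxl, hrel⟩ := add_form hF hw hN.BC hN.BX he₂ hlev
  set y' : ℕ → Ω := fun i => if i = 0 then e else if i ≤ N then A i else 0 with hy'
  have hy0 : y' 0 = e := by simp [hy']
  have hyi : ∀ i ∈ Icc 1 N, y' i = A i := by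
    intro i hi
    obtain ⟨h1, h2⟩ := mem_Icc.1 hi
    have h3 : i ≠ 0 := by omega
    simp [hy', h3, h2]
  have hyN : y' N = A N := hyi N (mem_Icc.2 ⟨hN.N1, le_rfl⟩)
  have hpar : Par v C (cadj v (cadj v C w) y) w ρ y s := Par.mk' hw hy hN.lim0 rfl
  refine ⟨b₀, x, S, y', ⟨hpar, ⟨hxC, ?_, hxl⟩, ⟨?_, ?_, ?_⟩, hb₀, ?_⟩, hx0, hy0, hyi, ?_⟩
  · rw [hx0]
    have h1 := hN.B1
    rwa [he₂, eval_C] at h1
  · intro i
    rcases eq_or_ne i 0 with rfl | hi
    · rw [hy0]
      exact hN.eC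
    · by_cases hiN : i ≤ N
      · rw [hyi i (mem_Icc.2 ⟨by omega, hiN⟩)]
        exact hN.AC i (mem_Icc.2 ⟨by omega, hiN⟩)
      · have h1 : y' i = 0 := by simp [hy', hi, hiN]
        rw [h1]
        exact zero_mem _
  · rw [hy0]
    exact hN.ege
  · intro i hi
    by_cases hiN : i ≤ N
    · have hm : i ∈ Icc 1 N := mem_Icc.2 ⟨by omega, hiN⟩
      rw [hyi i hm]
      exact TWII.LP.down hw (hN.AC i hm) (hN.Alp i hm)
    · have h1 : y' i = 0 := by simp [hy', hi, hiN]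
      rw [h1]
      exact lp_of_ge RVal.Ge.zero
  · have e1 : col p y' y N = e * y + ∑ i ∈ Icc 1 N, A i * y ^ p ^ i := by
      rw [col, range_eq_Ico, sum_eq_sum_Ico_succ_bot (Nat.succ_pos N), hy0, pow_zero, pow_one]
      congr 1
      have e2 : Ico (0 + 1) (N + 1) = Icc 1 N := by
        ext i
        simp only [mem_Ico, mem_Icc]
        omega
      rw [e2]
      exact sum_congr rfl fun i hi => by rw [hyi i hi]
    have e2 : b - (b₀ + col p x w S + col p y' y N) =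
        (b - (e * y + ∑ i ∈ Icc 1 N, A i * y ^ p ^ i + B.eval w)) +
          (B.eval w - (b₀ + col p x w S)) := by
      rw [e1]
      ring
    rw [e2]
    exact hb.add (PG.of_le' (le_cadj v _ y) hrel)
  · rw [hyN]
    exact fun h1 => hN.top (TWII.PG.up h1)

/-- **The additive form of a socle class over the pair `w`, `y - φ`.** -/
theorem af_of_soc (hΩ : CompleteV v) (hF : Fam v C w ρ) (hw : TL v C w ρ)
    (hy : TL v (cadj v C w) y s)
    {e₀ a₀ : Ω} {A₀ : ℕ → Ω} (hN : 1 ≤ N) (he₀ : e₀ ∈ cadj v C w)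
    (hev : v.Ge (ν - s) e₀) (ha₀ : a₀ ∈ cadj v C w)
    (hA₀ : ∀ i ∈ Icc 1 N, A₀ i ∈ cadj v C w)
    (hlo : ∀ i ∈ Icc 1 N, LP p v (cadj v C w) (ν - p ^ i * s) (A₀ i))
    (htop : ¬ PG p v (cadj v C w) (ν - p ^ N * s) (A₀ N))
    (hst : ∀ ε : ℝ, 0 < ε → ∃ δ : ℝ, 0 < δ ∧ ∀ θ ∈ cadj v C w, v.Ge (s - δ) (y - θ) →
      ∃ g ∈ cadj v C w, v.Ge (ν - ε)
        (e₀ * θ + ∑ i ∈ Icc 1 N, A₀ i * θ ^ p ^ i + a₀ - g ^ p))
    (ha : PG p v (cadj v (cadj v C w) y) ν
      (b - (e₀ * y + ∑ i ∈ Icc 1 N, A₀ i * y ^ p ^ i + a₀))) :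
    ∃ φ ∈ cadj v C w, TL v C (y - φ) s ∧ ∃ (b₀ : Ω) (x : ℕ → Ω) (S : ℕ) (y' : ℕ → Ω),
      AF p v C (cadj v (cadj v C w) y) ν b b₀ w ρ x S (y - φ) s y' N ∧
      ¬ PG p v C (ν - p ^ N * s) (y' N) := by
  obtain ⟨φ, e, e₂, A, B, hφ, hT, hNr, -, -, hB1, -, -, hrel⟩ :=
    rat_of_hit hΩ hF hw hy hN he₀ hev ha₀ hA₀ hlo htop hst ha
  have hK : cadj v (cadj v C w) (y - φ) = cadj v (cadj v C w) y := cadj_sub_mem hφ
  obtain ⟨b₀, x, S, y', h1, -, -, -, h2⟩ := nrm_af (b := b) hF hw (TL.sub_mem hy hφ) hNr hB1 (by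
    rw [hK]
    exact hrel)
  rw [hK] at h1
  exact ⟨φ, hφ, hT, b₀, x, S, y', h1, h2⟩

/-- `MovV` gives the family. -/
theorem fam_of_movV {L : ℕ → IntermediateField k Ω} (hL : Monotone L)
    (hd : C ≤ clI v (⨆ J, L J)) (hmov : MovV v L C w ρ) : Fam v C w ρ := by
  classical
  intro S hS M ε hε
  obtain ⟨D, hD⟩ : ∃ D : ℕ, ∀ f ∈ S, f.natDegree ≤ D :=
    ⟨S.sup natDegree, fun f hf => Finset.le_sup (f := natDegree) hf⟩
  obtain ⟨P, hP⟩ := Finset.exists_le ((range (D + 1)).image fun i : ℕ => M - i * v w)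
  obtain ⟨J₀, hJ₀⟩ := TWCT.exists_level hL hd (S.biUnion fun f => (range (D + 1)).image f.coeff)
    (fun x hx => by
      obtain ⟨f, hf, hx⟩ := mem_biUnion.1 hx
      obtain ⟨i, -, rfl⟩ := mem_image.1 hx
      exact hS f hf i) P
  obtain ⟨Φ, η, Z, h1, h2, h3, h4, h5, h6, h7⟩ := hmov J₀ ε hε
  refine ⟨Φ, η, Z, ρ - v Z, ⟨h1.pos, h1.iso, fun x hx => h1.mem hx, h2.str, h3, h4⟩,
    fun f hf => ?_, h5, by linarith, by linarith, by ring⟩
  have e1 : (sm Φ f).eval w - f.eval w =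
      ∑ i ∈ range (D + 1), (Φ (f.coeff i) - f.coeff i) * w ^ i := by
    rw [eval_eq_sum_range' (Nat.lt_succ_of_le ((sm_natDegree_le f).trans (hD f hf))),
      eval_eq_sum_range' (Nat.lt_succ_of_le (hD f hf)), ← sum_sub_distrib]
    refine sum_congr rfl fun i _ => ?_
    rw [sm_coeff, sub_mul]
  rw [e1]
  refine RVal.Ge.sum _ _ fun i hi => ?_
  have h8 := hJ₀ J₀ le_rfl Φ h1.iso h1.fix (f.coeff i)
    (mem_biUnion.2 ⟨f, hf, mem_image.2 ⟨i, hi, rfl⟩⟩)
  refine (h8.mul (ge_pow (RVal.ge_self w) i)).mono ?_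
  have h9 := hP _ (mem_image.2 ⟨i, hi, rfl⟩)
  linarith

/-- **(j = 2), the abelian pair**: from a hit. -/
theorem af_of_hit (hΩ : CompleteV v) (hF : Fam v C w ρ) (hw : TL v C w ρ)
    (hy : TL v (cadj v C w) y s) (hit : Hit p v (cadj v C w) y s) :
    ∃ φ ∈ cadj v C w, TL v C (y - φ) s ∧
      ∃ (ν : ℝ) (b b₀ : Ω) (x : ℕ → Ω) (S : ℕ) (y' : ℕ → Ω) (N : ℕ), 1 ≤ N ∧
      b ∈ cadj v (cadj v C w) y ∧ LP p v (cadj v (cadj v C w) y) ν b ∧
      AF p v C (cadj v (cadj v C w) y) ν b b₀ w ρ x S (y - φ) s y' N ∧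
      ¬ PG p v C (ν - p ^ N * s) (y' N) := by
  obtain ⟨ν, a₀, β, T, ha₀, hβ, hlp, hT, htop⟩ := hit.top hy
  have hsum : ∀ z : Ω, a₀ + col p β z T = β 0 * z + ∑ i ∈ Icc 1 T, β i * z ^ p ^ i + a₀ := by
    intro z
    have e2 : Ico (0 + 1) (T + 1) = Icc 1 T := by
      ext i
      simp only [mem_Ico, mem_Icc]
      omega
    rw [col, range_eq_Ico, sum_eq_sum_Ico_succ_bot (Nat.succ_pos T), pow_zero, pow_one, e2]
    ring
  have hb : a₀ + col p β y T ∈ cadj v (cadj v C w) y := by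
    rw [col]
    exact add_mem (le_cadj _ _ _ ha₀) (sum_mem fun j _ =>
      mul_mem (le_cadj _ _ _ (hβ.mem j)) (pow_mem (self_mem_cadj _ _ _) _))
  obtain ⟨φ, hφ, h1, b₀, x, S, y', h2, h3⟩ := af_of_soc (p := p) (ν := ν) (N := T)
    (b := a₀ + col p β y T) hΩ hF hw hy (Nat.one_le_iff_ne_zero.2 hT) (hβ.mem 0) hβ.lin ha₀
    (fun i _ => hβ.mem i) (fun i hi => hβ.lev i (by have := (mem_Icc.1 hi).1; omega)) htop
    (fun ε hε => by
      obtain ⟨δ, hδ, h1⟩ := hβ.near (le_cadj _ _ y) (self_mem_cadj _ _ y) T (half_pos hε)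
      refine ⟨δ, hδ, fun θ hθ h2 => ?_⟩
      have h3 := (hlp.pc (c' := ν - ε) (by linarith)).sub ((h1 θ hθ h2).mono
        (c' := ν - ε) (by linarith))
      have e1 : a₀ + col p β y T - (col p β y T - col p β θ T) = a₀ + col p β θ T := by ring
      rw [e1] at h3
      have hm : a₀ + col p β θ T ∈ cadj v C w := by
        rw [col]
        exact add_mem ha₀ (sum_mem fun j _ => mul_mem (hβ.mem j) (pow_mem hθ _))
      obtain ⟨g, hg, h4⟩ := PC.down hy hm h3
      refine ⟨g, hg, ?_⟩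
      rwa [hsum] at h4)
    (by
      rw [← hsum, sub_self]
      exact .of_gt Gt.zero)
  exact ⟨φ, hφ, h1, ν, _, b₀, x, S, y', T, Nat.one_le_iff_ne_zero.2 hT, hb, hlp, h2, h3⟩

end Pool.Agent.TWRT
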